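import Pool.Agent.H306R2.RZ.Defs

set_option autoImplicit false

/-! Project RZ, tasks P2 and P3: Gauss sums. -/

namespace Pool.Agent.H987R2.RZ

open Finset Filter Topology MeasureTheory
open Pool.Agent.H306R2.RZ

noncomputable section

/-- sum over a full period, Chinese remainder form -/
lemma sum_crt (m n : ℕ) (hm : 0 < m) (hn : 0 < n) (h : m.Coprime n) (f : ℕ → ℝ)
    (hf : ∀ r, f (r % (m * n)) = f r) :
    ∑ r ∈ range (m * n), f r = ∑ a ∈ range m, ∑ b ∈ range n, f (a * n + b * m) := by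
  rw [← Finset.sum_product']
  symm
  refine Finset.sum_bij (fun x _ => (x.1 * n + x.2 * m) % (m * n)) ?_ ?_ ?_ ?_
  · intro x _
    exact mem_range.2 (Nat.mod_lt _ (Nat.mul_pos hm hn))
  · rintro ⟨a, b⟩ hab ⟨a', b'⟩ hab' heq
    simp only [mem_product, mem_range] at hab hab' heq
    have h1 : (a * n + b * m) ≡ (a' * n + b' * m) [MOD (m * n)] := heq
    have h2 : (a * n + b * m) ≡ (a' * n + b' * m) [MOD m] := h1.of_mul_right n
    have h3 : (a * n + b * m) ≡ (a' * n + b' * m) [MOD n] := h1.of_mul_left m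
    have h4 : a * n ≡ a' * n [MOD m] := by
      have e1 : (a * n + b * m) ≡ a * n [MOD m] := by
        simp [Nat.ModEq]
      have e2 : (a' * n + b' * m) ≡ a' * n [MOD m] := by
        simp [Nat.ModEq]
      exact e1.symm.trans (h2.trans e2)
    have h5 : b * m ≡ b' * m [MOD n] := by
      have e1 : (a * n + b * m) ≡ b * m [MOD n] := by
        simp [Nat.ModEq]
      have e2 : (a' * n + b' * m) ≡ b' * m [MOD n] := by
        simp [Nat.ModEq]
      exact e1.symm.trans (h3.trans e2)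
    have h6 : a ≡ a' [MOD m] := Nat.ModEq.cancel_right_of_coprime h h4
    have h7 : b ≡ b' [MOD n] := Nat.ModEq.cancel_right_of_coprime h.symm h5
    have h8 : a = a' := Nat.ModEq.eq_of_lt_of_lt h6 hab.1 hab'.1
    have h9 : b = b' := Nat.ModEq.eq_of_lt_of_lt h7 hab.2 hab'.2
    rw [h8, h9]
  · intro r hr
    have hcard : (range (m * n)).card ≤ ((range m) ×ˢ (range n)).card := by
      simp
    obtain ⟨x, hx, hxe⟩ := Finset.surj_on_of_inj_on_of_card_le
      (s := (range m) ×ˢ (range n)) (t := range (m * n))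
      (fun x _ => (x.1 * n + x.2 * m) % (m * n))
      (fun x _ => mem_range.2 (Nat.mod_lt _ (Nat.mul_pos hm hn)))
      (by
        rintro ⟨a, b⟩ ⟨a', b'⟩ hab hab' heq
        simp only [mem_product, mem_range] at hab hab' heq
        have h1 : (a * n + b * m) ≡ (a' * n + b' * m) [MOD (m * n)] := heq
        have h2 : (a * n + b * m) ≡ (a' * n + b' * m) [MOD m] := h1.of_mul_right n
        have h3 : (a * n + b * m) ≡ (a' * n + b' * m) [MOD n] := h1.of_mul_left m
        have h4 : a * n ≡ a' * n [MOD m] := by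
          have e1 : (a * n + b * m) ≡ a * n [MOD m] := by
            simp [Nat.ModEq]
          have e2 : (a' * n + b' * m) ≡ a' * n [MOD m] := by
            simp [Nat.ModEq]
          exact e1.symm.trans (h2.trans e2)
        have h5 : b * m ≡ b' * m [MOD n] := by
          have e1 : (a * n + b * m) ≡ b * m [MOD n] := by
            simp [Nat.ModEq]
          have e2 : (a' * n + b' * m) ≡ b' * m [MOD n] := by
            simp [Nat.ModEq]
          exact e1.symm.trans (h3.trans e2)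
        have h6 : a ≡ a' [MOD m] := Nat.ModEq.cancel_right_of_coprime h h4
        have h7 : b ≡ b' [MOD n] := Nat.ModEq.cancel_right_of_coprime h.symm h5
        have h8 : a = a' := Nat.ModEq.eq_of_lt_of_lt h6 hab.1 hab'.1
        have h9 : b = b' := Nat.ModEq.eq_of_lt_of_lt h7 hab.2 hab'.2
        rw [h8, h9]) hcard r hr
    exact ⟨x, hx, hxe.symm⟩
  · rintro ⟨a, b⟩ _
    exact (hf _).symm

lemma cas_add_int (t : ℝ) (z : ℤ) : cas (t + 2 * Real.pi * z) = cas t := by
  unfold cas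
  have h1 : t + 2 * Real.pi * z = t + z * (2 * Real.pi) := by ring
  rw [h1, Real.cos_add_int_mul_two_pi, Real.sin_add_int_mul_two_pi]

/-- periodicity of the terms -/
lemma term_mod (k : ℤ) (n : ℕ) (hn : 0 < n) (r : ℕ) :
    js ((r % n : ℕ) : ℤ) n * cas (2 * Real.pi * (k : ℝ) * ((r % n : ℕ) : ℝ) / (n : ℝ)) =
      js (r : ℤ) n * cas (2 * Real.pi * (k : ℝ) * (r : ℝ) / (n : ℝ)) := by
  have h1 : js ((r % n : ℕ) : ℤ) n = js (r : ℤ) n := by
    unfold js
    rw [Int.natCast_mod, ← jacobiSym.mod_left]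
  have hn' : (n : ℝ) ≠ 0 := by positivity
  have h2 : (r : ℝ) = ((r % n : ℕ) : ℝ) + (n : ℝ) * ((r / n : ℕ) : ℝ) := by
    have := Nat.mod_add_div r n
    exact_mod_cast this.symm
  have h3 : 2 * Real.pi * (k : ℝ) * (r : ℝ) / (n : ℝ) =
      2 * Real.pi * (k : ℝ) * ((r % n : ℕ) : ℝ) / (n : ℝ) +
        2 * Real.pi * ((k * ((r / n : ℕ) : ℤ) : ℤ) : ℝ) := by
    rw [Int.cast_mul, Int.cast_natCast]
    conv_lhs => rw [h2]
    field_simp
  rw [h1, h3, cas_add_int]

/-- cosine part -/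
def Cs (k : ℤ) (n : ℕ) : ℝ :=
  ∑ r ∈ range n, js (r : ℤ) n * Real.cos (2 * Real.pi * (k : ℝ) * (r : ℝ) / (n : ℝ))

/-- sine part -/
def Sn (k : ℤ) (n : ℕ) : ℝ :=
  ∑ r ∈ range n, js (r : ℤ) n * Real.sin (2 * Real.pi * (k : ℝ) * (r : ℝ) / (n : ℝ))

lemma Gk_eq (k : ℤ) (n : ℕ) : Gk k n = Cs k n + Sn k n := by
  unfold Gk Cs Sn cas
  rw [← Finset.sum_add_distrib]
  exact Finset.sum_congr rfl fun r _ => by ring

/-- `r → n - r` -/
lemma sum_neg (n : ℕ) (f : ℕ → ℝ) (h0 : f 0 = f n) :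
    ∑ r ∈ range n, f r = ∑ r ∈ range n, f (n - r) := by
  have h1 : ∑ r ∈ range (n + 1), f r = ∑ r ∈ range (n + 1), f (n - r) := by
    rw [← Finset.sum_range_reflect (fun r => f r) (n + 1)]
    exact Finset.sum_congr rfl fun r _ => by
      congr 1
  rw [Finset.sum_range_succ, Finset.sum_range_succ, Nat.sub_self, h0] at h1
  linarith

lemma js_neg (n : ℕ) (hn : Odd n) (r : ℕ) (hr : r ≤ n) :
    js ((n - r : ℕ) : ℤ) n = js (-1) n * js (r : ℤ) n := by
  unfold js
  rw [Nat.cast_sub hr]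
  have h1 : jacobiSym ((n : ℤ) - (r : ℤ)) n = jacobiSym (-(r : ℤ)) n := by
    rw [jacobiSym.mod_left, jacobiSym.mod_left (-(r : ℤ))]
    congr 1
    simp [sub_eq_add_neg]
  rw [h1, jacobiSym.neg _ hn]
  push_cast
  have h2 : ((ZMod.χ₄ (n : ZMod 4) : ℤ) : ℝ) = ((jacobiSym (-1) n : ℤ) : ℝ) := by
    rw [jacobiSym.at_neg_one hn]
  rw [h2]

lemma Cs_neg (k : ℤ) (n : ℕ) (hn : Odd n) : Cs k n = js (-1) n * Cs k n := by
  have hn' : (n : ℝ) ≠ 0 := by
    have := hn.pos
    positivity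
  conv_lhs => unfold Cs
  rw [sum_neg]
  · unfold Cs
    rw [Finset.mul_sum]
    refine Finset.sum_congr rfl fun r hr => ?_
    have hr' : r ≤ n := (mem_range.1 hr).le
    rw [js_neg n hn r hr', Nat.cast_sub hr']
    have h3 : 2 * Real.pi * (k : ℝ) * ((n : ℝ) - (r : ℝ)) / (n : ℝ) =
      -(2 * Real.pi * (k : ℝ) * (r : ℝ) / (n : ℝ)) + k * (2 * Real.pi) := by
      field_simp
      ring
    rw [h3, Real.cos_add_int_mul_two_pi, Real.cos_neg]
    ring
  · have h4 : js ((n : ℕ) : ℤ) n = js ((0 : ℕ) : ℤ) n := by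
      unfold js
      rw [jacobiSym.mod_left]
      simp
    have h5 : 2 * Real.pi * (k : ℝ) * (n : ℝ) / (n : ℝ) = 0 + k * (2 * Real.pi) := by
      field_simp
      ring
    rw [h4, h5, Real.cos_add_int_mul_two_pi]
    simp

lemma Sn_neg (k : ℤ) (n : ℕ) (hn : Odd n) : Sn k n = -(js (-1) n * Sn k n) := by
  have hn' : (n : ℝ) ≠ 0 := by
    have := hn.pos
    positivity
  conv_lhs => unfold Sn
  rw [sum_neg]
  · unfold Sn
    rw [Finset.mul_sum, ← Finset.sum_neg_distrib]
    refine Finset.sum_congr rfl fun r hr => ?_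
    have hr' : r ≤ n := (mem_range.1 hr).le
    rw [js_neg n hn r hr', Nat.cast_sub hr']
    have h3 : 2 * Real.pi * (k : ℝ) * ((n : ℝ) - (r : ℝ)) / (n : ℝ) =
      -(2 * Real.pi * (k : ℝ) * (r : ℝ) / (n : ℝ)) + k * (2 * Real.pi) := by
      field_simp
      ring
    rw [h3, Real.sin_add_int_mul_two_pi, Real.sin_neg]
    ring
  · have h4 : js ((n : ℕ) : ℤ) n = js ((0 : ℕ) : ℤ) n := by
      unfold js
      rw [jacobiSym.mod_left]
      simp
    have h5 : 2 * Real.pi * (k : ℝ) * (n : ℝ) / (n : ℝ) = 0 + k * (2 * Real.pi) := by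
      field_simp
      ring
    rw [h4, h5, Real.sin_add_int_mul_two_pi]
    simp

lemma Sn_zero (k : ℤ) (n : ℕ) (hn : n % 4 = 1) : Sn k n = 0 := by
  have h1 := Sn_neg k n (Nat.odd_iff.2 (Nat.odd_of_mod_four_eq_one hn))
  have h2 : js (-1) n = 1 := by
    unfold js
    rw [jacobiSym.at_neg_one (Nat.odd_iff.2 (Nat.odd_of_mod_four_eq_one hn)), ZMod.χ₄_nat_one_mod_four hn]
    simp
  rw [h2] at h1
  linarith

lemma Cs_zero (k : ℤ) (n : ℕ) (hn : n % 4 = 3) : Cs k n = 0 := by
  have h1 := Cs_neg k n (Nat.odd_iff.2 (Nat.odd_of_mod_four_eq_three hn))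
  have h2 : js (-1) n = -1 := by
    unfold js
    rw [jacobiSym.at_neg_one (Nat.odd_iff.2 (Nat.odd_of_mod_four_eq_three hn)), ZMod.χ₄_nat_three_mod_four hn]
    simp
  rw [h2] at h1
  linarith

lemma js_sq_one (a b : ℕ) (h : a.Coprime b) : js (a : ℤ) b * js (a : ℤ) b = 1 := by
  unfold js
  have h1 : jacobiSym (a : ℤ) b ^ 2 = 1 := jacobiSym.sq_one (by simpa using h)
  have h2 : ((jacobiSym (a : ℤ) b : ℤ) : ℝ) ^ 2 = 1 := by exact_mod_cast h1
  rw [← sq]
  exact h2

theorem P2 (k : ℤ) (m n : ℕ) (hm : Odd m) (hn : Odd n) (h : m.Coprime n) :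
    Gk k (m * n) = Gk k m * Gk k n := by
  have hm0 : 0 < m := hm.pos
  have hn0 : 0 < n := hn.pos
  have hm' : (m : ℝ) ≠ 0 := by positivity
  have hn' : (n : ℝ) ≠ 0 := by positivity
  have : NeZero m := ⟨hm0.ne'⟩
  have : NeZero n := ⟨hn0.ne'⟩
  have h1 : Gk k (m * n) = js (n : ℤ) m * js (m : ℤ) n *
      (Cs k m * Cs k n - Sn k m * Sn k n + Sn k m * Cs k n + Cs k m * Sn k n) := by
    have e1 : Gk k (m * n) = ∑ a ∈ range m, ∑ b ∈ range n,
        js ((a * n + b * m : ℕ) : ℤ) (m * n) *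
          cas (2 * Real.pi * (k : ℝ) * ((a * n + b * m : ℕ) : ℝ) / ((m * n : ℕ) : ℝ)) := by
      unfold Gk
      exact sum_crt m n hm0 hn0 h
        (fun r => js (r : ℤ) (m * n) * cas (2 * Real.pi * (k : ℝ) * (r : ℝ) / ((m * n : ℕ) : ℝ)))
        (fun r => term_mod k (m * n) (Nat.mul_pos hm0 hn0) r)
    rw [e1]
    have e2 : ∀ a ∈ range m, ∀ b ∈ range n,
        js ((a * n + b * m : ℕ) : ℤ) (m * n) *
          cas (2 * Real.pi * (k : ℝ) * ((a * n + b * m : ℕ) : ℝ) / ((m * n : ℕ) : ℝ)) =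
        js (n : ℤ) m * js (m : ℤ) n *
          ((js (a : ℤ) m * Real.cos (2 * Real.pi * (k : ℝ) * (a : ℝ) / (m : ℝ))) *
            (js (b : ℤ) n * Real.cos (2 * Real.pi * (k : ℝ) * (b : ℝ) / (n : ℝ))) -
           (js (a : ℤ) m * Real.sin (2 * Real.pi * (k : ℝ) * (a : ℝ) / (m : ℝ))) *
            (js (b : ℤ) n * Real.sin (2 * Real.pi * (k : ℝ) * (b : ℝ) / (n : ℝ))) +
           (js (a : ℤ) m * Real.sin (2 * Real.pi * (k : ℝ) * (a : ℝ) / (m : ℝ))) *
            (js (b : ℤ) n * Real.cos (2 * Real.pi * (k : ℝ) * (b : ℝ) / (n : ℝ))) +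
           (js (a : ℤ) m * Real.cos (2 * Real.pi * (k : ℝ) * (a : ℝ) / (m : ℝ))) *
            (js (b : ℤ) n * Real.sin (2 * Real.pi * (k : ℝ) * (b : ℝ) / (n : ℝ)))) := by
      intro a _ b _
      have f1 : js ((a * n + b * m : ℕ) : ℤ) (m * n) =
          js (n : ℤ) m * js (m : ℤ) n * (js (a : ℤ) m * js (b : ℤ) n) := by
        unfold js
        rw [jacobiSym.mul_right]
        have g1 : jacobiSym ((a * n + b * m : ℕ) : ℤ) m = jacobiSym ((a : ℤ) * n) m := by
          rw [jacobiSym.mod_left, jacobiSym.mod_left ((a : ℤ) * n)]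
          congr 1
          push_cast
          simp [Int.add_emod]
        have g2 : jacobiSym ((a * n + b * m : ℕ) : ℤ) n = jacobiSym ((b : ℤ) * m) n := by
          rw [jacobiSym.mod_left, jacobiSym.mod_left ((b : ℤ) * m)]
          congr 1
          push_cast
          simp [Int.add_emod]
        rw [g1, g2, jacobiSym.mul_left, jacobiSym.mul_left]
        push_cast
        ring
      have f2 : 2 * Real.pi * (k : ℝ) * ((a * n + b * m : ℕ) : ℝ) / ((m * n : ℕ) : ℝ) =
          2 * Real.pi * (k : ℝ) * (a : ℝ) / (m : ℝ) + 2 * Real.pi * (k : ℝ) * (b : ℝ) / (n : ℝ) := by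
        push_cast
        field_simp
      rw [f1, f2]
      unfold cas
      rw [Real.cos_add, Real.sin_add]
      ring
    rw [Finset.sum_congr rfl fun a ha => Finset.sum_congr rfl fun b hb => e2 a ha b hb]
    have e3 : ∀ u v : ℕ → ℝ, ∑ a ∈ range m, ∑ b ∈ range n, u a * v b =
        (∑ a ∈ range m, u a) * (∑ b ∈ range n, v b) := by
      intro u v
      rw [Finset.sum_mul_sum]
    simp only [← Finset.mul_sum, Finset.sum_add_distrib, Finset.sum_sub_distrib]
    unfold Cs Sn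
    simp only [← Finset.sum_mul]
  rw [h1, Gk_eq, Gk_eq]
  have hm4 := Nat.odd_mod_four_iff.1 (Nat.odd_iff.1 hm)
  have hn4 := Nat.odd_mod_four_iff.1 (Nat.odd_iff.1 hn)
  rcases hm4 with hm4 | hm4
  · have hR : js (n : ℤ) m * js (m : ℤ) n = 1 := by
      have : js (m : ℤ) n = js (n : ℤ) m := by
        unfold js
        rw [jacobiSym.quadratic_reciprocity_one_mod_four hm4 hn]
      rw [this]
      exact js_sq_one n m h.symm
    rw [Sn_zero k m hm4, hR]
    ring
  · rcases hn4 with hn4 | hn4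
    · have hR : js (n : ℤ) m * js (m : ℤ) n = 1 := by
        have : js (n : ℤ) m = js (m : ℤ) n := by
          unfold js
          rw [jacobiSym.quadratic_reciprocity_one_mod_four hn4 hm]
        rw [this]
        exact js_sq_one m n h
      rw [Sn_zero k n hn4, hR]
      ring
    · have hR : js (n : ℤ) m * js (m : ℤ) n = -1 := by
        have : js (m : ℤ) n = -js (n : ℤ) m := by
          unfold js
          rw [jacobiSym.quadratic_reciprocity_three_mod_four hm4 hn4]
          push_cast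
          ring
        rw [this]
        have := js_sq_one n m h.symm
        linarith
      rw [Cs_zero k m hm4, Cs_zero k n hn4, hR]
      ring

end

end Pool.Agent.H987R2.RZ
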