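import Mathlib

set_option autoImplicit false

namespace H987R2

/-- sharpened Bernoulli inequality for exponents `p ≤ 1/2` -/
lemma rpow_le_quad_small {p x : ℝ} (hp : 0 ≤ p) (hp2 : p ≤ 1 / 2) (hx : 0 ≤ x) :
    x ^ p ≤ 1 + p * (x - 1) - p * (Real.sqrt x - 1) ^ 2 := by
  have h1 : x ^ p = (Real.sqrt x) ^ (2 * p) := by
    rw [Real.sqrt_eq_rpow, ← Real.rpow_mul hx]
    congr 1; ring
  have h2 : (1 + (Real.sqrt x - 1)) ^ (2 * p) ≤ 1 + 2 * p * (Real.sqrt x - 1) :=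
    rpow_one_add_le_one_add_mul_self (by have := Real.sqrt_nonneg x; linarith) (by linarith) (by linarith)
  rw [add_sub_cancel] at h2
  rw [h1]
  refine h2.trans (le_of_eq ?_)
  have h3 : Real.sqrt x ^ 2 = x := Real.sq_sqrt hx
  have : p * (x - 1) = p * (Real.sqrt x ^ 2 - 1) := by rw [h3]
  rw [this]; ring

/-- sharpened Bernoulli inequality -/
lemma rpow_le_quad {g x : ℝ} (hg : 0 ≤ g) (hg1 : g ≤ 1) (hx : 0 < x) :
    x ^ g ≤ 1 + g * (x - 1) - min g (1 - g) * (Real.sqrt x - 1) ^ 2 := by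
  rcases le_total g (1 / 2) with h | h
  · refine (rpow_le_quad_small hg h hx.le).trans ?_
    have h1 : min g (1 - g) ≤ g := min_le_left _ _
    nlinarith [sq_nonneg (Real.sqrt x - 1)]
  · have h1 := rpow_le_quad_small (p := 1 - g) (x := x⁻¹) (by linarith) (by linarith)
      (inv_nonneg.2 hx.le)
    have h2 : x ^ g = x * (x⁻¹) ^ (1 - g) := by
      rw [Real.inv_rpow hx.le, ← Real.rpow_neg hx.le]
      nth_rewrite 2 [← Real.rpow_one x]
      rw [← Real.rpow_add hx]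
      congr 1; ring
    rw [h2]
    have h3 : x * (x⁻¹) ^ (1 - g) ≤ x * (1 + (1 - g) * (x⁻¹ - 1) - (1 - g) * (Real.sqrt x⁻¹ - 1) ^ 2) :=
      mul_le_mul_of_nonneg_left h1 hx.le
    refine h3.trans ?_
    have h4 : Real.sqrt x ^ 2 = x := Real.sq_sqrt hx.le
    have hs : 0 < Real.sqrt x := Real.sqrt_pos.2 hx
    have h5 : x * (Real.sqrt x⁻¹ - 1) ^ 2 = (Real.sqrt x - 1) ^ 2 := by
      rw [Real.sqrt_inv]
      nth_rewrite 1 [← h4]
      field_simp
      ring
    have h6 : x * (1 + (1 - g) * (x⁻¹ - 1) - (1 - g) * (Real.sqrt x⁻¹ - 1) ^ 2)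
        = 1 + g * (x - 1) - (1 - g) * (x * (Real.sqrt x⁻¹ - 1) ^ 2) := by
      field_simp
      ring
    rw [h6, h5]
    have h7 : min g (1 - g) ≤ 1 - g := min_le_right _ _
    nlinarith [sq_nonneg (Real.sqrt x - 1)]

/-- the quantitative form of `cosh(y)^g ≥ cosh(g y)`, in multiplicative notation -/
lemma mean_rpow_ge {g a b : ℝ} (hg : 0 < g) (hg1 : g < 1) (ha : 0 < a) (hb : 0 < b)
    (hab : a * b = 1) :
    1 + (1 + min g (1 - g) / 2) * ((a ^ g + b ^ g) / 2 - 1) ≤ ((a + b) / 2) ^ g := by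
  set m := (a + b) / 2 with hm
  set d := min g (1 - g) with hd
  have hd0 : 0 < d := lt_min hg (by linarith)
  have hd1 : d ≤ 1 / 2 := by
    rcases le_total g (1 / 2) with h | h
    · exact (min_le_left _ _).trans h
    · exact (min_le_right _ _).trans (by linarith)
  have hm0 : 0 < m := by positivity
  have hm1 : 1 ≤ m := by
    rw [hm]
    nlinarith [sq_nonneg (a - b)]
  set X := m ^ g with hX
  set A := (a ^ g + b ^ g) / 2 with hA
  have hX0 : 0 < X := Real.rpow_pos_of_pos hm0 _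
  have hX1 : 1 ≤ X := Real.one_le_rpow hm1 hg.le
  have hXm : X ≤ m := by
    calc X ≤ m ^ (1 : ℝ) := Real.rpow_le_rpow_of_exponent_le hm1 hg1.le
      _ = m := Real.rpow_one m
  have hag : a ^ g = X * (a / m) ^ g := by
    rw [Real.div_rpow ha.le hm0.le, ← hX]; field_simp
  have hbg : b ^ g = X * (b / m) ^ g := by
    rw [Real.div_rpow hb.le hm0.le, ← hX]; field_simp
  have h1 := rpow_le_quad hg.le hg1.le (div_pos ha hm0)
  have h2 := rpow_le_quad hg.le hg1.le (div_pos hb hm0)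
  rw [← hd] at h1 h2
  have hsum : a / m + b / m = 2 := by rw [hm]; field_simp
  -- sum of the squares
  have hsa : Real.sqrt (a / m) ^ 2 = a / m := Real.sq_sqrt (div_pos ha hm0).le
  have hsb : Real.sqrt (b / m) ^ 2 = b / m := Real.sq_sqrt (div_pos hb hm0).le
  set u := Real.sqrt (a / m) with hu
  set v := Real.sqrt (b / m) with hv
  have hu0 : 0 ≤ u := Real.sqrt_nonneg _
  have hv0 : 0 ≤ v := Real.sqrt_nonneg _
  have huv : u * v = m⁻¹ := by
    rw [hu, hv, ← Real.sqrt_mul (div_pos ha hm0).le]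
    have : a / m * (b / m) = (m⁻¹) ^ 2 := by
      field_simp
      linarith
    rw [this, Real.sqrt_sq (by positivity)]
  have huv2 : (u + v) ^ 2 = 2 + 2 * m⁻¹ := by
    have : (u + v) ^ 2 = u ^ 2 + v ^ 2 + 2 * (u * v) := by ring
    rw [this, hsa, hsb, hsum, huv]
  have huv3 : u + v ≤ 2 - (1 - m⁻¹) / 2 := by
    have hminv : m⁻¹ ≤ 1 := inv_le_one_of_one_le₀ hm1
    have hminv0 : 0 < m⁻¹ := inv_pos.2 hm0
    refine le_of_sq_le_sq ?_ (by linarith)
    rw [huv2]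
    nlinarith [sq_nonneg (1 - m⁻¹)]
  have hsq : 1 - m⁻¹ ≤ (u - 1) ^ 2 + (v - 1) ^ 2 := by
    have : (u - 1) ^ 2 + (v - 1) ^ 2 = u ^ 2 + v ^ 2 + 2 - 2 * (u + v) := by ring
    rw [this, hsa, hsb, hsum]
    linarith
  have hAX : A ≤ X * (1 - d / 2 * (1 - m⁻¹)) := by
    have h3 : (a / m) ^ g + (b / m) ^ g ≤ 2 - d * (1 - m⁻¹) := by
      have h31 : d * (1 - m⁻¹) ≤ d * ((u - 1) ^ 2 + (v - 1) ^ 2) :=
        mul_le_mul_of_nonneg_left hsq hd0.le
      have h32 : g * (a / m - 1) + g * (b / m - 1) = 0 := by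
        rw [← mul_add]
        have : a / m - 1 + (b / m - 1) = 0 := by linarith
        rw [this, mul_zero]
      have h33 : d * ((u - 1) ^ 2 + (v - 1) ^ 2) = d * (u - 1) ^ 2 + d * (v - 1) ^ 2 := by ring
      linarith
    have h34 : X * ((a / m) ^ g + (b / m) ^ g) ≤ X * (2 - d * (1 - m⁻¹)) :=
      mul_le_mul_of_nonneg_left h3 hX0.le
    have h35 : A = X * ((a / m) ^ g + (b / m) ^ g) / 2 := by
      rw [hA, hag, hbg]; ring
    rw [h35]
    have h36 : X * (1 - d / 2 * (1 - m⁻¹)) = X * (2 - d * (1 - m⁻¹)) / 2 := by ring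
    rw [h36]
    linarith
  have hXinv : 1 - m⁻¹ ≥ 1 - X⁻¹ := by
    have : m⁻¹ ≤ X⁻¹ := inv_anti₀ hX0 hXm
    linarith
  have hAX2 : A ≤ X - d / 2 * (X - 1) := by
    have h4 : X * (1 - d / 2 * (1 - m⁻¹)) ≤ X * (1 - d / 2 * (1 - X⁻¹)) := by
      apply mul_le_mul_of_nonneg_left _ hX0.le
      have : d / 2 * (1 - X⁻¹) ≤ d / 2 * (1 - m⁻¹) := mul_le_mul_of_nonneg_left hXinv (by linarith)
      linarith
    have h5 : X * (1 - d / 2 * (1 - X⁻¹)) = X - d / 2 * (X - 1) := by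
      field_simp
    linarith
  have hA1 : 1 ≤ A := by
    rw [hA]
    have : a ^ g * b ^ g = 1 := by
      rw [← Real.mul_rpow ha.le hb.le, hab, Real.one_rpow]
    have ha0 : 0 < a ^ g := Real.rpow_pos_of_pos ha _
    have hb0 : 0 < b ^ g := Real.rpow_pos_of_pos hb _
    have h6 : 2 ≤ a ^ g + b ^ g := by
      have h7 : (2:ℝ) ^ 2 ≤ (a ^ g + b ^ g) ^ 2 := by
        have : (a ^ g + b ^ g) ^ 2 = (a ^ g - b ^ g) ^ 2 + 4 * (a ^ g * b ^ g) := by ring
        rw [this]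
        nlinarith [sq_nonneg (a ^ g - b ^ g)]
      exact le_of_sq_le_sq h7 (by positivity)
    linarith
  have h8 : (1 + d / 2) * (A - 1) ≤ (1 + d / 2) * ((1 - d / 2) * (X - 1)) := by
    apply mul_le_mul_of_nonneg_left _ (by linarith)
    linarith
  have h9 : (1 + d / 2) * ((1 - d / 2) * (X - 1)) ≤ X - 1 := by
    have : (1 + d / 2) * ((1 - d / 2) * (X - 1)) = (X - 1) - (d / 2) ^ 2 * (X - 1) := by ring
    rw [this]
    have : 0 ≤ (d / 2) ^ 2 * (X - 1) := mul_nonneg (sq_nonneg _) (by linarith)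
    linarith
  linarith

/-- lower bound of `((1+e^s)/2)^g` by exponentials -/
lemma phi_rpow_ge {g : ℝ} (hg : 0 < g) (hg1 : g < 1) (s : ℝ) :
    (1 + min g (1 - g) / 2) * ((1 + Real.exp (g * s)) / 2) - min g (1 - g) / 2 * Real.exp (g / 2 * s)
      ≤ ((1 + Real.exp s) / 2) ^ g := by
  have h := mean_rpow_ge hg hg1 (Real.exp_pos (s / 2)) (Real.exp_pos (-(s / 2)))
    (by rw [← Real.exp_add]; simp)
  have e0 : (1 + Real.exp s) / 2 = Real.exp (s / 2) * ((Real.exp (s / 2) + Real.exp (-(s / 2))) / 2) := by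
    have h1 : Real.exp (s / 2) * Real.exp (s / 2) = Real.exp s := by
      rw [← Real.exp_add]; congr 1; ring
    have h2 : Real.exp (s / 2) * Real.exp (-(s / 2)) = 1 := by
      rw [← Real.exp_add]; simp
    linear_combination (-1/2) * h1 + (-1/2) * h2
  rw [e0, Real.mul_rpow (Real.exp_pos _).le (by positivity), ← Real.exp_mul]
  rw [← Real.exp_mul, ← Real.exp_mul] at h
  have h3 := mul_le_mul_of_nonneg_left h (Real.exp_pos (s / 2 * g)).le
  refine le_trans (le_of_eq ?_) h3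
  have h4 : Real.exp (s / 2 * g) * Real.exp (s / 2 * g) = Real.exp (g * s) := by
    rw [← Real.exp_add]; congr 1; ring
  have h5 : Real.exp (s / 2 * g) * Real.exp (-(s / 2) * g) = 1 := by
    rw [← Real.exp_add]; simp
  have h6 : Real.exp (g / 2 * s) = Real.exp (s / 2 * g) := by congr 1; ring
  rw [h6]
  linear_combination (-(1 + min g (1 - g) / 2) / 2) * h4 + (-(1 + min g (1 - g) / 2) / 2) * h5

end H987R2
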