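import Mathlib

set_option autoImplicit false
open Filter Topology
open scoped ENNReal NNReal

namespace H987R2

/-- `m^{-(1+α)} ≤ α⁻¹ ((m-1)^{-α} - m^{-α})` -/
lemma rpow_telescope {α x : ℝ} (hα : 0 < α) (hx : 0 < x) :
    α * (x + 1) ^ (-(1 + α)) ≤ x ^ (-α) - (x + 1) ^ (-α) := by
  have hx1 : 0 < x + 1 := by linarith
  have h1 : x ^ (-α) = (x + 1) ^ (-α) * (x / (x + 1)) ^ (-α) := by
    rw [← Real.mul_rpow hx1.le (div_pos hx hx1).le]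
    congr 1
    field_simp
  have h2 : (x + 1) ^ (-(1 + α)) = (x + 1) ^ (-α) * (x + 1)⁻¹ := by
    have : -(1 + α) = -α + (-1) := by ring
    rw [this, Real.rpow_add hx1, Real.rpow_neg_one]
  have h3 : 1 + α * (x + 1)⁻¹ ≤ (x / (x + 1)) ^ (-α) := by
    rw [Real.rpow_def_of_pos (div_pos hx hx1)]
    have h4 : Real.log (x / (x + 1)) ≤ x / (x + 1) - 1 :=
      Real.log_le_sub_one_of_pos (div_pos hx hx1)
    have h5 : x / (x + 1) - 1 = -(x + 1)⁻¹ := by field_simp; ring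
    rw [h5] at h4
    have h6 := Real.add_one_le_exp (Real.log (x / (x + 1)) * -α)
    nlinarith
  have h7 : 0 < (x + 1) ^ (-α) := Real.rpow_pos_of_pos hx1 _
  rw [h1, h2]
  nlinarith

lemma sum_rpow_tail {α : ℝ} (hα : 0 < α) (n : ℕ) (hn : 1 ≤ n) (J : ℕ) (hJ : n ≤ J) :
    ∑ m ∈ Finset.Ioc n J, (m : ℝ) ^ (-(1 + α)) ≤ α⁻¹ * ((n : ℝ) ^ (-α) - (J : ℝ) ^ (-α)) := by
  induction J, hJ using Nat.le_induction with
  | base => simp
  | succ J hJ ih =>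
    rw [Finset.sum_Ioc_succ_top (by omega)]
    have hJ0 : (0:ℝ) < J := by exact_mod_cast (by omega : 0 < J)
    have h1 := rpow_telescope hα hJ0
    push_cast
    have h2 : ((J:ℝ) + 1) ^ (-(1 + α)) ≤ α⁻¹ * ((J:ℝ) ^ (-α) - ((J:ℝ) + 1) ^ (-α)) := by
      rw [inv_mul_eq_div, le_div_iff₀ hα]
      linarith
    have h3 : α⁻¹ * ((n : ℝ) ^ (-α) - ((J:ℝ) + 1) ^ (-α))
        = α⁻¹ * ((n : ℝ) ^ (-α) - (J:ℝ) ^ (-α)) + α⁻¹ * ((J:ℝ) ^ (-α) - ((J:ℝ) + 1) ^ (-α)) := by ring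
    rw [h3]
    linarith

lemma sum_pmf_le_one (κ : PMF ℕ) (s : Finset ℕ) : ∑ k ∈ s, (κ k).toReal ≤ 1 := by
  rw [← ENNReal.toReal_sum (fun a _ => κ.apply_ne_top a)]
  have h : ∑ a ∈ s, κ a ≤ 1 := by
    rw [← κ.tsum_coe]
    exact ENNReal.sum_le_tsum s
  exact ENNReal.toReal_le_of_le_ofReal zero_le_one (by simpa using h)

lemma pmf_tendsto (κ : PMF ℕ) (h0 : κ 0 = 0) :
    Tendsto (fun J : ℕ => ∑ k ∈ Finset.Icc 1 J, (κ k).toReal) atTop (𝓝 1) := by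
  have h1 : HasSum (fun k => (κ k).toReal) 1 := by
    have h2 : ∑' k, κ k = 1 := κ.tsum_coe
    have h3 := ENNReal.hasSum_toReal (f := fun k => κ k) (by rw [h2]; exact ENNReal.one_ne_top)
    rw [← ENNReal.tsum_toReal_eq (fun a => κ.apply_ne_top a), h2, ENNReal.toReal_one] at h3
    exact h3
  have h4 := h1.tendsto_sum_nat
  have h5 := h4.comp (tendsto_add_atTop_nat 1)
  refine h5.congr fun J => ?_
  simp only [Function.comp]
  rw [Finset.sum_range_succ']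
  rw [h0, ENNReal.toReal_zero, add_zero]
  rw [Finset.range_eq_Ico, Finset.sum_Ico_add' (fun k => (κ k).toReal) 0 J 1]
  rfl

/-- comparison of the mass of the gap law at large scales -/
lemma tail_compare {α c2 : ℝ} (hα : 0 < α) (hc2 : 0 < c2) : ∃ T : ℕ, 2 ≤ T ∧
    ∀ (κ : PMF ℕ), κ 0 = 0 → ∀ cK : ℝ, 0 < cK →
      Tendsto (fun n : ℕ => (n : ℝ) ^ (1 + α) * (κ n).toReal) atTop (𝓝 cK) →
      ∃ N0 : ℕ, ∀ N : ℕ, N0 ≤ N →
        1 < ∑ k ∈ Finset.Icc 1 (T * N), (κ k).toReal +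
          c2 * ∑ k ∈ Finset.Ioc N (T * N), (κ k).toReal := by
  have hT : Tendsto (fun T : ℕ => (T : ℝ) ^ α) atTop atTop :=
    (tendsto_rpow_atTop hα).comp tendsto_natCast_atTop_atTop
  obtain ⟨T, hT1, hT2⟩ := ((hT.eventually_gt_atTop (4 * 2 ^ (1 + α) / (α * c2))).and
    (eventually_ge_atTop 2)).exists
  refine ⟨T, hT2, fun κ hκ0 cK hcK htail => ?_⟩
  have hlow : ∀ᶠ n : ℕ in atTop, cK / 2 < (n : ℝ) ^ (1 + α) * (κ n).toReal :=
    htail.eventually (lt_mem_nhds (by linarith))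
  have hupp : ∀ᶠ n : ℕ in atTop, (n : ℝ) ^ (1 + α) * (κ n).toReal < 2 * cK :=
    htail.eventually (gt_mem_nhds (by linarith))
  obtain ⟨n1, hn1⟩ := eventually_atTop.mp (hlow.and hupp)
  refine ⟨max 1 n1, fun N hN => ?_⟩
  have hN1 : 1 ≤ N := (le_max_left _ _).trans hN
  have hNn : n1 ≤ N := (le_max_right _ _).trans hN
  have hN0 : (0:ℝ) < N := by exact_mod_cast hN1
  have hT0 : (0:ℝ) < T := by exact_mod_cast (by omega : 0 < T)
  have hb : ∀ m : ℕ, N ≤ m → cK / 2 * (m:ℝ) ^ (-(1 + α)) ≤ (κ m).toReal ∧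
      (κ m).toReal ≤ 2 * cK * (m:ℝ) ^ (-(1 + α)) := by
    intro m hm
    have hm0 : (0:ℝ) < m := by exact_mod_cast (by omega : 0 < m)
    have h1 := hn1 m (by omega)
    have hx : (0 : ℝ) < (m : ℝ) ^ (1 + α) := Real.rpow_pos_of_pos hm0 _
    rw [Real.rpow_neg hm0.le, ← div_eq_mul_inv, ← div_eq_mul_inv]
    constructor
    · rw [div_le_iff₀ hx]; linarith [h1.1]
    · rw [le_div_iff₀ hx]; linarith [h1.2]
  set n := T * N with hn
  have hNle : N ≤ n := by rw [hn]; nlinarith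
  have h2N : 2 * N ≤ n := by rw [hn]; nlinarith
  -- upper bound for the remaining mass
  have hup : ∀ J : ℕ, n ≤ J → ∑ k ∈ Finset.Icc 1 J, (κ k).toReal
      ≤ ∑ k ∈ Finset.Icc 1 n, (κ k).toReal + 2 * cK * (α⁻¹ * (n:ℝ) ^ (-α)) := by
    intro J hJ
    have hsplit : Finset.Icc 1 J = Finset.Icc 1 n ∪ Finset.Ioc n J := by
      ext k; simp only [Finset.mem_union, Finset.mem_Icc, Finset.mem_Ioc]; omega
    have hdisj : Disjoint (Finset.Icc 1 n) (Finset.Ioc n J) := by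
      rw [Finset.disjoint_left]; intro k; simp only [Finset.mem_Icc, Finset.mem_Ioc]; omega
    rw [hsplit, Finset.sum_union hdisj]
    have h3 : ∑ k ∈ Finset.Ioc n J, (κ k).toReal
        ≤ ∑ k ∈ Finset.Ioc n J, 2 * cK * (k:ℝ) ^ (-(1 + α)) := by
      refine Finset.sum_le_sum fun k hk => ?_
      rw [Finset.mem_Ioc] at hk
      exact (hb k (by omega)).2
    rw [← Finset.mul_sum] at h3
    have h4 := sum_rpow_tail hα n (by omega) J hJ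
    have h5 : (0:ℝ) ≤ (J:ℝ) ^ (-α) := Real.rpow_nonneg (Nat.cast_nonneg _) _
    have h6 : α⁻¹ * ((n : ℝ) ^ (-α) - (J : ℝ) ^ (-α)) ≤ α⁻¹ * (n:ℝ) ^ (-α) := by
      apply mul_le_mul_of_nonneg_left _ (inv_nonneg.2 hα.le)
      linarith
    have h7 : 2 * cK * ∑ k ∈ Finset.Ioc n J, (k:ℝ) ^ (-(1 + α)) ≤ 2 * cK * (α⁻¹ * (n:ℝ) ^ (-α)) :=
      mul_le_mul_of_nonneg_left (h4.trans h6) (by linarith)
    linarith
  have hlim : (1:ℝ) ≤ ∑ k ∈ Finset.Icc 1 n, (κ k).toReal + 2 * cK * (α⁻¹ * (n:ℝ) ^ (-α)) :=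
    le_of_tendsto (pmf_tendsto κ hκ0) (eventually_atTop.2 ⟨n, hup⟩)
  -- lower bound for the mass in between
  have hlow2 : (N:ℝ) * (cK / 2 * ((2 * N : ℕ) : ℝ) ^ (-(1 + α)))
      ≤ ∑ k ∈ Finset.Ioc N n, (κ k).toReal := by
    have h3 : ∑ k ∈ Finset.Ioc N (2 * N), (κ k).toReal ≤ ∑ k ∈ Finset.Ioc N n, (κ k).toReal :=
      Finset.sum_le_sum_of_subset_of_nonneg (Finset.Ioc_subset_Ioc_right h2N)
        fun _ _ _ => ENNReal.toReal_nonneg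
    refine le_trans ?_ h3
    have h4 : ∑ _k ∈ Finset.Ioc N (2 * N), cK / 2 * ((2 * N : ℕ) : ℝ) ^ (-(1 + α))
        = (N:ℝ) * (cK / 2 * ((2 * N : ℕ) : ℝ) ^ (-(1 + α))) := by
      rw [Finset.sum_const, Nat.card_Ioc, nsmul_eq_mul]
      congr 2
      omega
    rw [← h4]
    refine Finset.sum_le_sum fun k hk => ?_
    rw [Finset.mem_Ioc] at hk
    refine le_trans ?_ (hb k (by omega)).1
    apply mul_le_mul_of_nonneg_left _ (by linarith)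
    apply Real.rpow_le_rpow_of_nonpos (by exact_mod_cast (by omega : 0 < k))
    · exact_mod_cast hk.2
    · linarith
  -- comparison
  have e1 : (n:ℝ) ^ (-α) = (T:ℝ) ^ (-α) * (N:ℝ) ^ (-α) := by
    rw [hn]; push_cast
    rw [Real.mul_rpow hT0.le hN0.le]
  have e2 : (N:ℝ) * (cK / 2 * ((2 * N : ℕ) : ℝ) ^ (-(1 + α)))
      = cK / 2 * (2:ℝ) ^ (-(1 + α)) * (N:ℝ) ^ (-α) := by
    push_cast
    rw [Real.mul_rpow (by norm_num) hN0.le]
    have : (N:ℝ) ^ (-α) = N * (N:ℝ) ^ (-(1 + α)) := by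
      nth_rewrite 2 [← Real.rpow_one (N:ℝ)]
      rw [← Real.rpow_add hN0]
      congr 1; ring
    rw [this]; ring
  rw [e2] at hlow2
  rw [e1] at hlim
  have hNα : 0 < (N:ℝ) ^ (-α) := Real.rpow_pos_of_pos hN0 _
  have hTα : 0 < (T:ℝ) ^ α := Real.rpow_pos_of_pos hT0 _
  have h2α : (0:ℝ) < 2 ^ (1 + α) := Real.rpow_pos_of_pos (by norm_num) _
  have hcmp : 2 * cK * (α⁻¹ * ((T:ℝ) ^ (-α) * (N:ℝ) ^ (-α)))
      < c2 * (cK / 2 * (2:ℝ) ^ (-(1 + α)) * (N:ℝ) ^ (-α)) := by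
    rw [Real.rpow_neg hT0.le, Real.rpow_neg (by norm_num : (0:ℝ) ≤ 2)]
    have h8 : 4 * 2 ^ (1 + α) < (T:ℝ) ^ α * (α * c2) := by
      rwa [div_lt_iff₀ (mul_pos hα hc2)] at hT1
    have h9 : 2 * (α⁻¹ * ((T:ℝ) ^ α)⁻¹) < c2 * (1 / 2 * ((2:ℝ) ^ (1 + α))⁻¹) := by
      have e3 : 2 * (α⁻¹ * ((T:ℝ) ^ α)⁻¹) = 2 / (α * (T:ℝ) ^ α) := by
        field_simp
      have e4 : c2 * (1 / 2 * ((2:ℝ) ^ (1 + α))⁻¹) = c2 / (2 * 2 ^ (1 + α)) := by
        field_simp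
      rw [e3, e4, div_lt_div_iff₀ (by positivity) (by positivity)]
      nlinarith
    have h10 := mul_lt_mul_of_pos_right h9 (mul_pos hcK hNα)
    calc 2 * cK * (α⁻¹ * (((T:ℝ) ^ α)⁻¹ * (N:ℝ) ^ (-α)))
        = 2 * (α⁻¹ * ((T:ℝ) ^ α)⁻¹) * (cK * (N:ℝ) ^ (-α)) := by ring
      _ < _ := h10
      _ = _ := by ring
  have h11 : c2 * (cK / 2 * (2:ℝ) ^ (-(1 + α)) * (N:ℝ) ^ (-α))
      ≤ c2 * ∑ k ∈ Finset.Ioc N n, (κ k).toReal := mul_le_mul_of_nonneg_left hlow2 hc2.le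
  linarith

end H987R2
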