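import Pool.Agent.H987R2.Up
import Pool.Agent.H987R2.Tail
import Pool.Agent.Helper764.Cop_hc
import Pool.Agent.Helper764.Cop_fe
import Pool.Agent.Helper764.Cop_int

set_option autoImplicit false
open MeasureTheory ProbabilityTheory Filter Topology
open scoped ENNReal NNReal

namespace H987R2
open Cop764

lemma pow_exp (x : ℝ) (m : ℕ) : Real.exp x ^ m = Real.exp (m * x) := by
  rw [← Real.exp_nat_mul]

/-- lower bound of the fractional moment of an excursion weight at `h = (γ+η)λ` -/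
lemma em_ge (D : Data) {g η C : ℝ} (hg : 0 < g) (hg1 : g < 1) (hη : 0 ≤ η) (hη1 : η ≤ 1)
    (hC : 0 ≤ C) (hM : ∀ t : ℝ, |t| ≤ 1 → |mg D.ν t - (1 + t ^ 2 / 2)| ≤ C * |t| ^ 3)
    (hlam : D.lam ≤ 1 / 2) (hlamC : C * D.lam ≤ g ^ 2 / 4)
    (hε : (2 * g * η + (8 * C + 8) * D.lam) * D.lam ^ 2 ≤ 1) (m : ℕ) :
    1 + min g (1 - g) / 2 * (1 - Real.exp (-(g ^ 2 / 4 * (D.lam ^ 2 * m))))
      - (1 + min g (1 - g) / 2) / 2 * ((2 * g * η + (8 * C + 8) * D.lam) * (D.lam ^ 2 * m))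
      ≤ em D g ((g + η) * D.lam) m := by
  have hl := D.hlam
  set l := D.lam with hldef
  set c := min g (1 - g) / 2 with hc
  have hc0 : 0 < c := by
    have : 0 < min g (1 - g) := lt_min hg (by linarith)
    positivity
  set ε := 2 * g * η + (8 * C + 8) * l with hεdef
  have h0 := em_lower D hg hg1 ((g + η) * l) m
  rw [← hc, ← hldef] at h0
  have hl2 : 0 < l ^ 2 := by positivity
  have hl1 : l ≤ 1 := by linarith
  -- the first base
  have hρ1 : 1 - ε * l ^ 2 ≤ mg D.ν (-2 * l * g) * Real.exp (-2 * l * g * ((g + η) * l)) := by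
    have ht : |(-2 * l * g)| ≤ 1 := by
      rw [abs_le]; constructor <;> nlinarith
    have h1 := (abs_le.1 (hM _ ht)).1
    have h2 : |(-2 * l * g)| ^ 3 = 8 * l ^ 3 * g ^ 3 := by
      have : |(-2 * l * g)| = 2 * l * g := by
        rw [abs_of_nonpos (by nlinarith [mul_pos hl hg])]; ring
      rw [this]; ring
    rw [h2] at h1
    set x := 2 * l * g * ((g + η) * l) with hx
    have hx0 : 0 ≤ x := by positivity
    have hx4 : x ≤ 4 * l ^ 2 := by
      have e : x = 2 * (g * (g + η)) * l ^ 2 := by rw [hx]; ring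
      have : g * (g + η) ≤ 2 := by nlinarith
      rw [e]; nlinarith
    have hx1 : x ≤ 1 := by nlinarith
    have h3 : 1 - x ≤ Real.exp (-2 * l * g * ((g + η) * l)) := by
      have := Real.add_one_le_exp (-2 * l * g * ((g + η) * l))
      have e : -2 * l * g * ((g + η) * l) = -x := by rw [hx]; ring
      rw [e] at this ⊢
      linarith
    have h4 : 0 < mg D.ν (-2 * l * g) := mg_pos D.ν D.expm _
    have h5 : mg D.ν (-2 * l * g) * (1 - x) ≤ mg D.ν (-2 * l * g) * Real.exp (-2 * l * g * ((g + η) * l)) :=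
      mul_le_mul_of_nonneg_left h3 h4.le
    refine le_trans ?_ h5
    have h6 : 1 + 2 * l ^ 2 * g ^ 2 - 8 * C * l ^ 3 * g ^ 3 ≤ mg D.ν (-2 * l * g) := by
      nlinarith
    have h7 : (1 + 2 * l ^ 2 * g ^ 2 - 8 * C * l ^ 3 * g ^ 3) * (1 - x) ≤ mg D.ν (-2 * l * g) * (1 - x) :=
      mul_le_mul_of_nonneg_right h6 (by linarith)
    refine le_trans ?_ h7
    have e1 : (1 + 2 * l ^ 2 * g ^ 2 - 8 * C * l ^ 3 * g ^ 3) * (1 - x)
        = 1 + 2 * l ^ 2 * g ^ 2 - x - 8 * C * l ^ 3 * g ^ 3 - 2 * l ^ 2 * g ^ 2 * x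
          + 8 * C * l ^ 3 * g ^ 3 * x := by ring
    have e2 : x = 2 * l ^ 2 * g ^ 2 + 2 * l ^ 2 * g * η := by rw [hx]; ring
    have h8 : 0 ≤ 8 * C * l ^ 3 * g ^ 3 * x := by positivity
    have hg3 : g ^ 3 ≤ 1 := pow_le_one₀ hg.le hg1.le
    have hg2 : g ^ 2 ≤ 1 := pow_le_one₀ hg.le hg1.le
    have h9 : 8 * C * l ^ 3 * g ^ 3 ≤ 8 * C * l ^ 3 := by
      have : 0 ≤ 8 * C * l ^ 3 := by positivity
      nlinarith
    have h10 : 2 * l ^ 2 * g ^ 2 * x ≤ 8 * l ^ 3 := by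
      have h11 : 2 * l ^ 2 * g ^ 2 * x ≤ 2 * l ^ 2 * 1 * (4 * l ^ 2) := by
        gcongr
      have h12 : l ^ 4 ≤ l ^ 3 := pow_le_pow_of_le_one hl.le hl1 (by norm_num)
      nlinarith
    rw [e1]
    have e3 : ε * l ^ 2 = 2 * l ^ 2 * g * η + 8 * C * l ^ 3 + 8 * l ^ 3 := by rw [hεdef]; ring
    rw [e3]
    linarith
  have hA : 1 - ε * (l ^ 2 * m)
      ≤ (mg D.ν (-2 * l * g) * Real.exp (-2 * l * g * ((g + η) * l))) ^ m := by
    have h1 : (1 + -(ε * l ^ 2)) ^ m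
        ≤ (mg D.ν (-2 * l * g) * Real.exp (-2 * l * g * ((g + η) * l))) ^ m := by
      apply pow_le_pow_left₀
      · linarith
      · linarith
    have h2 := one_add_mul_le_pow (a := -(ε * l ^ 2)) (by linarith) m
    refine le_trans (le_of_eq ?_) (h2.trans h1)
    ring
  have hB : (mg D.ν (-2 * l * (g / 2)) * Real.exp (-2 * l * (g / 2) * ((g + η) * l))) ^ m
      ≤ Real.exp (-(g ^ 2 / 4 * (l ^ 2 * m))) := by
    have e0 : -2 * l * (g / 2) = -(l * g) := by ring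
    rw [e0]
    have hlg : 0 < l * g := mul_pos hl hg
    have ht : |(-(l * g))| ≤ 1 := by
      rw [abs_neg, abs_of_pos hlg]; nlinarith
    have h1 := (abs_le.1 (hM _ ht)).2
    have h2 : |(-(l * g))| ^ 3 = l ^ 3 * g ^ 3 := by
      rw [abs_neg, abs_of_pos hlg]; ring
    rw [h2] at h1
    have h3 : mg D.ν (-(l * g)) ≤ Real.exp (l ^ 2 * g ^ 2 / 2 + C * (l ^ 3 * g ^ 3)) := by
      have := Real.add_one_le_exp (l ^ 2 * g ^ 2 / 2 + C * (l ^ 3 * g ^ 3))
      nlinarith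
    have h4 : 0 < mg D.ν (-(l * g)) := mg_pos D.ν D.expm _
    have h5 : mg D.ν (-(l * g)) * Real.exp (-(l * g) * ((g + η) * l))
        ≤ Real.exp (-(g ^ 2 / 4 * l ^ 2)) := by
      calc mg D.ν (-(l * g)) * Real.exp (-(l * g) * ((g + η) * l))
          ≤ Real.exp (l ^ 2 * g ^ 2 / 2 + C * (l ^ 3 * g ^ 3)) * Real.exp (-(l * g) * ((g + η) * l)) :=
            mul_le_mul_of_nonneg_right h3 (Real.exp_pos _).le
        _ = Real.exp (l ^ 2 * g ^ 2 / 2 + C * (l ^ 3 * g ^ 3) + -(l * g) * ((g + η) * l)) := by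
            rw [Real.exp_add _ (-(l * g) * ((g + η) * l))]
        _ ≤ _ := by
            apply Real.exp_le_exp.2
            have hg3 : g ^ 3 ≤ 1 := pow_le_one₀ hg.le hg1.le
            have h6 : C * (l ^ 3 * g ^ 3) ≤ g ^ 2 / 4 * l ^ 2 := by
              calc C * (l ^ 3 * g ^ 3) ≤ C * (l ^ 3 * 1) := by gcongr
                _ = C * l * l ^ 2 := by ring
                _ ≤ g ^ 2 / 4 * l ^ 2 := mul_le_mul_of_nonneg_right hlamC hl2.le
            have h7 : 0 ≤ l ^ 2 * (g * η) := by positivity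
            nlinarith
    calc (mg D.ν (-(l * g)) * Real.exp (-(l * g) * ((g + η) * l))) ^ m
        ≤ (Real.exp (-(g ^ 2 / 4 * l ^ 2))) ^ m := by
          apply pow_le_pow_left₀ (by positivity) h5
      _ = Real.exp (-(g ^ 2 / 4 * (l ^ 2 * m))) := by
          rw [pow_exp]; congr 1; ring
  have h6 : (1 + c) * ((1 + (1 - ε * (l ^ 2 * m))) / 2) ≤ (1 + c) *
      ((1 + (mg D.ν (-2 * l * g) * Real.exp (-2 * l * g * ((g + η) * l))) ^ m) / 2) := by
    apply mul_le_mul_of_nonneg_left _ (by linarith)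
    linarith
  have h7 := mul_le_mul_of_nonneg_left hB hc0.le
  refine le_trans ?_ h0
  have e : (1 + c) * ((1 + (1 - ε * (l ^ 2 * m))) / 2)
      = 1 + c - (1 + c) / 2 * (ε * (l ^ 2 * m)) := by ring
  rw [e] at h6
  linarith

/-- The slope of the critical curve at the origin is larger than `1/(1+α)`:
analytic form in terms of the data. -/
theorem main_data {α : ℝ} (hα : 0 < α) : ∃ η : ℝ, 0 < η ∧
    ∀ (κ : PMF ℕ), κ 0 = 0 → ∀ cK : ℝ, 0 < cK →
      Tendsto (fun n : ℕ => (n : ℝ) ^ (1 + α) * (κ n).toReal) atTop (𝓝 cK) →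
    ∀ (ν : Measure ℝ), IsProbabilityMeasure ν → ∫ x, x ∂ν = 0 → ∫ x, x ^ 2 ∂ν = 1 →
      (∀ t : ℝ, Integrable (fun x => Real.exp (t * x)) ν) →
    ∃ l0 : ℝ, 0 < l0 ∧ ∀ D : Data, D.κ = κ → D.ν = ν → D.α = α → D.lam < l0 →
      0 < D.f (((1 + α)⁻¹ + η) * D.lam) := by
  set g : ℝ := (1 + α)⁻¹ with hgdef
  have hg : 0 < g := by positivity
  have hg1 : g < 1 := inv_lt_one_of_one_lt₀ (by linarith)
  have hgα : g * (1 + α) = 1 := by rw [hgdef]; field_simp
  set c := min g (1 - g) / 2 with hc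
  have hc0 : 0 < c := by
    have : 0 < min g (1 - g) := lt_min hg (by linarith)
    positivity
  have hc4 : c ≤ 1 / 4 := by
    rw [hc]
    rcases le_total g (1 / 2) with h | h
    · have := min_le_left g (1 - g); linarith
    · have := min_le_right g (1 - g); linarith
  set c3 := 1 - Real.exp (-(g ^ 2 / 4)) with hc3
  have hc30 : 0 < c3 := by
    have : Real.exp (-(g ^ 2 / 4)) < 1 := by
      rw [Real.exp_lt_one_iff]
      have : 0 < g ^ 2 := by positivity
      linarith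
    linarith
  obtain ⟨T, hT2, hT⟩ := tail_compare (α := α) (c2 := c * c3 / 2) hα (by positivity)
  have hT0 : (0:ℝ) < T := by exact_mod_cast (by omega : 0 < T)
  set ε0 := min (c * g ^ 2 / 5) (2 * c * c3 / (5 * T)) with hε0
  have hε00 : 0 < ε0 := lt_min (by positivity) (by positivity)
  have hε0a : ε0 ≤ c * g ^ 2 / 5 := min_le_left _ _
  have hε0b : ε0 ≤ 2 * c * c3 / (5 * T) := min_le_right _ _
  have hε01 : ε0 ≤ 1 := by
    have : c * g ^ 2 ≤ 1 := by nlinarith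
    linarith
  refine ⟨ε0 / 4, by positivity, ?_⟩
  intro κ hκ0 cK hcK htail ν hν hmean hvar hexp
  obtain ⟨C, hC0, hC⟩ := mgf_bound ν hmean hvar hexp
  obtain ⟨N0, hN0⟩ := hT κ hκ0 cK hcK htail
  refine ⟨min (min (1 / 2) (g ^ 2 / (4 * (C + 1)))) (min (ε0 / (16 * C + 16)) (1 / (N0 + 1))), ?_, ?_⟩
  · refine lt_min (lt_min (by norm_num) (by positivity)) (lt_min (by positivity) (by positivity))
  intro D hDκ hDν hDα hDl
  have hl := D.hlam
  set l := D.lam with hldef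
  have hl1 : l ≤ 1 / 2 := (hDl.le.trans (min_le_left _ _)).trans (min_le_left _ _)
  have hl2 : l ≤ g ^ 2 / (4 * (C + 1)) := (hDl.le.trans (min_le_left _ _)).trans (min_le_right _ _)
  have hl3 : l ≤ ε0 / (16 * C + 16) := (hDl.le.trans (min_le_right _ _)).trans (min_le_left _ _)
  have hl4 : l ≤ 1 / (N0 + 1) := (hDl.le.trans (min_le_right _ _)).trans (min_le_right _ _)
  have hlC : C * l ≤ g ^ 2 / 4 := by
    rw [le_div_iff₀ (by positivity)] at hl2
    nlinarith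
  have hε1 : 2 * g * (ε0 / 4) + (8 * C + 8) * l ≤ ε0 := by
    rw [le_div_iff₀ (by positivity)] at hl3
    nlinarith
  set ε := 2 * g * (ε0 / 4) + (8 * C + 8) * l with hεdef
  have hεnn : 0 ≤ ε := by positivity
  have hlsq : l ^ 2 ≤ 1 := by nlinarith
  have hεl : ε * l ^ 2 ≤ 1 := by
    have : 0 < l ^ 2 := by positivity
    nlinarith
  have hη1 : ε0 / 4 ≤ 1 := by linarith
  have hMD : ∀ t : ℝ, |t| ≤ 1 → |mg D.ν t - (1 + t ^ 2 / 2)| ≤ C * |t| ^ 3 := by
    intro t ht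
    rw [hDν]
    exact hC t ht
  have hem := fun m : ℕ => em_ge D (g := g) (η := ε0 / 4) (C := C) hg hg1 (by positivity) hη1 hC0
    hMD hl1 hlC hεl m
  rw [← hc, ← hldef, ← hεdef] at hem
  -- the scale
  set N := ⌈(l ^ 2)⁻¹⌉₊ with hN
  have hl2pos : 0 < l ^ 2 := by positivity
  have hN1 : 1 ≤ l ^ 2 * N := by
    have h1 : (l ^ 2)⁻¹ ≤ N := Nat.le_ceil _
    calc (1:ℝ) = l ^ 2 * (l ^ 2)⁻¹ := (mul_inv_cancel₀ hl2pos.ne').symm
      _ ≤ l ^ 2 * N := mul_le_mul_of_nonneg_left h1 hl2pos.le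
  have hN2 : l ^ 2 * N ≤ 2 := by
    have h1 : (N:ℝ) ≤ (l ^ 2)⁻¹ + 1 := (Nat.ceil_lt_add_one (by positivity)).le
    calc l ^ 2 * N ≤ l ^ 2 * ((l ^ 2)⁻¹ + 1) := mul_le_mul_of_nonneg_left h1 hl2pos.le
      _ = 1 + l ^ 2 := by rw [mul_add, mul_inv_cancel₀ hl2pos.ne', mul_one]
      _ ≤ 2 := by linarith
  have hNN0 : N0 ≤ N := by
    have h0 : l ^ 2 ≤ 1 / ((N0:ℝ) + 1) := by
      refine le_trans ?_ hl4
      nlinarith
    have h1 : (N0:ℝ) + 1 ≤ (l ^ 2)⁻¹ := by
      have := inv_anti₀ hl2pos h0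
      rwa [one_div, inv_inv] at this
    have h2 : (N0:ℝ) ≤ N := by
      have := Nat.le_ceil ((l ^ 2)⁻¹)
      linarith
    exact_mod_cast h2
  have hNpos : 0 < N := by
    rcases Nat.eq_zero_or_pos N with h | h
    · rw [h] at hN1; norm_num at hN1
    · exact h
  have hTN : 1 ≤ T * N := Nat.mul_pos (by omega) hNpos
  have hc54 : (1 + c) / 2 ≤ 5 / 8 := by linarith
  -- small excursions
  have hsm : ∀ k : ℕ, k ≤ N → 1 ≤ em D g ((g + ε0 / 4) * l) k := by
    intro k hk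
    refine le_trans ?_ (hem k)
    have hk2 : l ^ 2 * k ≤ 2 := by
      have : (k:ℝ) ≤ N := by exact_mod_cast hk
      nlinarith
    have hk0 : 0 ≤ l ^ 2 * (k:ℝ) := by positivity
    set y := l ^ 2 * (k:ℝ) with hy
    set x := g ^ 2 / 4 * y with hx
    have hx0 : 0 ≤ x := by positivity
    have hx1 : x ≤ 1 := by
      have : g ^ 2 ≤ 1 := pow_le_one₀ hg.le hg1.le
      nlinarith
    have hexpx : Real.exp (-x) ≤ 1 - x / 2 := by
      have h1 : Real.exp (-x) ≤ (1 + x)⁻¹ := by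
        rw [Real.exp_neg]
        exact inv_anti₀ (by linarith) (by linarith [Real.add_one_le_exp x])
      refine h1.trans ?_
      rw [inv_le_iff_one_le_mul₀ (by linarith)]
      nlinarith
    have h2 : c * (x / 2) ≤ c * (1 - Real.exp (-x)) := mul_le_mul_of_nonneg_left (by linarith) hc0.le
    have h3 : (1 + c) / 2 * (ε * y) ≤ 5 / 8 * (ε0 * y) := by
      apply mul_le_mul hc54 _ (by positivity) (by norm_num)
      exact mul_le_mul_of_nonneg_right hε1 hk0
    have h4 : 5 / 8 * (ε0 * y) ≤ c * (x / 2) := by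
      have h5 : ε0 * y ≤ c * g ^ 2 / 5 * y := mul_le_mul_of_nonneg_right hε0a hk0
      have h6 : c * (x / 2) = 5 / 8 * (c * g ^ 2 / 5 * y) := by rw [hx]; ring
      rw [h6]
      linarith
    linarith
  -- large excursions
  have hlg : ∀ k : ℕ, N ≤ k → k ≤ T * N → 1 + c * c3 / 2 ≤ em D g ((g + ε0 / 4) * l) k := by
    intro k hk hkT
    refine le_trans ?_ (hem k)
    have hk1 : 1 ≤ l ^ 2 * (k:ℝ) := by
      have : (N:ℝ) ≤ k := by exact_mod_cast hk
      nlinarith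
    have hk2 : l ^ 2 * (k:ℝ) ≤ 2 * T := by
      have h1 : (k:ℝ) ≤ T * N := by exact_mod_cast hkT
      calc l ^ 2 * (k:ℝ) ≤ l ^ 2 * (T * N) := mul_le_mul_of_nonneg_left h1 hl2pos.le
        _ = T * (l ^ 2 * N) := by ring
        _ ≤ T * 2 := mul_le_mul_of_nonneg_left hN2 hT0.le
        _ = 2 * T := by ring
    set y := l ^ 2 * (k:ℝ) with hy
    have h1 : Real.exp (-(g ^ 2 / 4 * y)) ≤ Real.exp (-(g ^ 2 / 4)) := by
      apply Real.exp_le_exp.2
      have : 0 < g ^ 2 / 4 := by positivity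
      nlinarith
    have h2 : c * c3 ≤ c * (1 - Real.exp (-(g ^ 2 / 4 * y))) := by
      apply mul_le_mul_of_nonneg_left _ hc0.le
      rw [hc3]; linarith
    have h3 : (1 + c) / 2 * (ε * y) ≤ 5 / 8 * (ε0 * (2 * T)) := by
      apply mul_le_mul hc54 _ (by positivity) (by norm_num)
      exact mul_le_mul hε1 hk2 (by positivity) hε00.le
    have h4 : 5 / 8 * (ε0 * (2 * T)) ≤ c * c3 / 2 := by
      have h5 : ε0 * (2 * T) ≤ 2 * c * c3 / (5 * T) * (2 * T) :=
        mul_le_mul_of_nonneg_right hε0b (by positivity)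
      have h6 : 2 * c * c3 / (5 * T) * (2 * T) = 4 / 5 * (c * c3) := by field_simp; ring
      rw [h6] at h5
      linarith
    linarith
  by_contra hcon
  push Not at hcon
  have hDg : g * (1 + D.α) = 1 := by rw [hDα]; exact hgα
  have hcrit := criterion D (h := (g + ε0 / 4) * l) (by positivity) hcon hDg (T * N) hTN
  have hK : ∀ k, D.K k = (κ k).toReal := by intro k; unfold Data.K; rw [hDκ]
  have hlow := hN0 N hNN0
  have hsplit : ∑ k ∈ Finset.Icc 1 (T * N), (κ k).toReal +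
      c * c3 / 2 * ∑ k ∈ Finset.Ioc N (T * N), (κ k).toReal
      ≤ ∑ k ∈ Finset.Icc 1 (T * N), D.K k * em D g ((g + ε0 / 4) * l) k := by
    have hIoc : Finset.Ioc N (T * N) = (Finset.Icc 1 (T * N)).filter (fun k => N < k) := by
      ext k; simp only [Finset.mem_Ioc, Finset.mem_filter, Finset.mem_Icc]; omega
    rw [hIoc, Finset.sum_filter, Finset.mul_sum, ← Finset.sum_add_distrib]
    refine Finset.sum_le_sum fun k hk => ?_
    rw [Finset.mem_Icc] at hk
    have hKk : 0 ≤ (κ k).toReal := ENNReal.toReal_nonneg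
    rw [hK]
    split_ifs with hNk
    · have := mul_le_mul_of_nonneg_left (hlg k hNk.le hk.2) hKk
      linarith
    · have := mul_le_mul_of_nonneg_left (hsm k (by omega)) hKk
      linarith
  linarith

end H987R2
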