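import Pool.Agent.H987R2.Cosh
import Pool.Agent.Helper764.CopDefs
import Pool.Agent.Helper764.Cop_block
import Pool.Agent.Helper764.Cop_EF
import Pool.Agent.Helper764.Cop_meas
import Pool.Agent.Helper764.Cop_Z
import Pool.Agent.Helper764.Cop_G
import Pool.Agent.Helper764.Cop_loc
import Pool.Agent.Helper764.Cop_stat
import Pool.Agent.Helper764.Cop_indep

set_option autoImplicit false
open MeasureTheory ProbabilityTheory Filter Topology
open scoped ENNReal NNReal

namespace H987R2
open Cop764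

lemma exp_taylor2 (x : ℝ) : |Real.exp x - (1 + x + x ^ 2 / 2)| ≤ |x| ^ 3 * Real.exp |x| := by
  have h := Complex.norm_exp_sub_sum_le_norm_mul_exp (x : ℂ) 3
  have e : Complex.exp (x : ℂ) - ∑ m ∈ Finset.range 3, (x : ℂ) ^ m / (m.factorial : ℂ)
      = ((Real.exp x - (1 + x + x ^ 2 / 2) : ℝ) : ℂ) := by
    simp [Finset.sum_range_succ, Nat.factorial]
  rw [e] at h
  rw [Complex.norm_real, Real.norm_eq_abs, Complex.norm_real, Real.norm_eq_abs] at h
  exact h

lemma cube_le_exp (x : ℝ) (hx : 0 ≤ x) : x ^ 3 ≤ 6 * Real.exp x := by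
  have := Real.pow_div_factorial_le_exp x hx 3
  have h6 : ((Nat.factorial 3 : ℕ) : ℝ) = 6 := by norm_num [Nat.factorial]
  rw [h6] at this
  linarith

lemma integrable_exp_abs (ν : Measure ℝ) [IsProbabilityMeasure ν]
    (hexp : ∀ t : ℝ, Integrable (fun x => Real.exp (t * x)) ν) (a : ℝ) :
    Integrable (fun x : ℝ => Real.exp (a * |x|)) ν := by
  have h1 := (hexp a).add (hexp (-a))
  refine h1.mono' (by fun_prop) (Filter.Eventually.of_forall fun x => ?_)
  rw [Real.norm_eq_abs, abs_of_pos (Real.exp_pos _)]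
  simp only [Pi.add_apply]
  rcases abs_cases x with ⟨h, _⟩ | ⟨h, _⟩
  · rw [h]
    have := Real.exp_pos (-a * x)
    linarith
  · rw [h]
    have := Real.exp_pos (a * x)
    have e : a * -x = -a * x := by ring
    rw [e]
    linarith

lemma mgf_bound (ν : Measure ℝ) [IsProbabilityMeasure ν]
    (hmean : ∫ x, x ∂ν = 0) (hvar : ∫ x, x ^ 2 ∂ν = 1)
    (hexp : ∀ t : ℝ, Integrable (fun x => Real.exp (t * x)) ν) :
    ∃ C : ℝ, 0 ≤ C ∧ ∀ t : ℝ, |t| ≤ 1 →
      |(∫ x, Real.exp (t * x) ∂ν) - (1 + t ^ 2 / 2)| ≤ C * |t| ^ 3 := by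
  have hx2 : Integrable (fun x : ℝ => x ^ 2) ν := by
    by_contra hc
    rw [integral_undef hc] at hvar
    exact zero_ne_one hvar
  have hx1 : Integrable (fun x : ℝ => x) ν := by
    refine (hx2.add (integrable_const (1:ℝ))).mono' (by fun_prop) (Filter.Eventually.of_forall fun x => ?_)
    simp only [Pi.add_apply, Real.norm_eq_abs]
    have := sq_nonneg (|x| - 1)
    rw [sub_sq, sq_abs] at this
    nlinarith [abs_nonneg x]
  have hI := integrable_exp_abs ν hexp 2
  refine ⟨6 * ∫ x, Real.exp (2 * |x|) ∂ν, by positivity, fun t ht => ?_⟩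
  have h1 : (∫ x, Real.exp (t * x) ∂ν) - (1 + t ^ 2 / 2)
      = ∫ x, (Real.exp (t * x) - (1 + t * x + (t * x) ^ 2 / 2)) ∂ν := by
    have hi1 : Integrable (fun x : ℝ => 1 + t * x + (t * x) ^ 2 / 2) ν := by
      have : (fun x : ℝ => 1 + t * x + (t * x) ^ 2 / 2) = fun x => 1 + t * x + t ^ 2 / 2 * x ^ 2 := by
        funext x; ring
      rw [this]
      exact ((integrable_const _).add (hx1.const_mul t)).add (hx2.const_mul _)
    rw [integral_sub (hexp t) hi1]
    congr 1
    have : (fun x : ℝ => 1 + t * x + (t * x) ^ 2 / 2) = fun x => (1 + t * x) + t ^ 2 / 2 * x ^ 2 := by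
      funext x; ring
    have i1 : Integrable (fun x : ℝ => 1 + t * x) ν := (integrable_const _).add (hx1.const_mul t)
    have i2 : Integrable (fun x : ℝ => t ^ 2 / 2 * x ^ 2) ν := hx2.const_mul _
    have i3 : Integrable (fun x : ℝ => t * x) ν := hx1.const_mul t
    rw [this, integral_add i1 i2,
      integral_add (integrable_const _) i3, integral_const_mul, integral_const_mul,
      hmean, hvar]
    simp
  rw [h1]
  refine (abs_integral_le_integral_abs).trans ?_
  have h2 : ∀ x : ℝ, |Real.exp (t * x) - (1 + t * x + (t * x) ^ 2 / 2)|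
      ≤ 6 * |t| ^ 3 * Real.exp (2 * |x|) := by
    intro x
    refine (exp_taylor2 (t * x)).trans ?_
    have h3 : |t * x| ≤ |x| := by
      rw [abs_mul]
      have := abs_nonneg x
      nlinarith
    have h4 : Real.exp |t * x| ≤ Real.exp |x| := Real.exp_le_exp.2 h3
    have h5 : |t * x| ^ 3 = |t| ^ 3 * |x| ^ 3 := by rw [abs_mul, mul_pow]
    have h6 := cube_le_exp |x| (abs_nonneg x)
    have h7 : Real.exp (2 * |x|) = Real.exp |x| * Real.exp |x| := by
      rw [← Real.exp_add]; congr 1; ring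
    rw [h5, h7]
    have ht3 : 0 ≤ |t| ^ 3 := by positivity
    calc |t| ^ 3 * |x| ^ 3 * Real.exp |t * x| ≤ |t| ^ 3 * (6 * Real.exp |x|) * Real.exp |x| := by
          gcongr
      _ = 6 * |t| ^ 3 * (Real.exp |x| * Real.exp |x|) := by ring
  have h8 : Integrable (fun x : ℝ => |Real.exp (t * x) - (1 + t * x + (t * x) ^ 2 / 2)|) ν := by
    refine (hI.const_mul (6 * |t| ^ 3)).mono' (by fun_prop) (Filter.Eventually.of_forall fun x => ?_)
    rw [Real.norm_eq_abs, abs_abs]
    exact h2 x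
  refine (integral_mono h8 (hI.const_mul _) h2).trans (le_of_eq ?_)
  rw [integral_const_mul]
  ring

/-- the moment generating function of the disorder -/
noncomputable def mg (ν : Measure ℝ) (t : ℝ) : ℝ := ∫ x, Real.exp (t * x) ∂ν

lemma mg_pos (ν : Measure ℝ) [IsProbabilityMeasure ν]
    (hexp : ∀ t : ℝ, Integrable (fun x => Real.exp (t * x)) ν) (t : ℝ) : 0 < mg ν t :=
  integral_exp_pos (hexp t)

/-- exponential moments of the energy -/
lemma int_exp_S (D : Data) (h θ : ℝ) (m : ℕ) :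
    Integrable (fun ω : ℕ → ℝ => Real.exp (θ * S (D.w h ω) 0 m)) D.P ∧
    ∫ ω, Real.exp (θ * S (D.w h ω) 0 m) ∂D.P
      = (mg D.ν (-2 * D.lam * θ) * Real.exp (-2 * D.lam * θ * h)) ^ m := by
  have hg : Measurable (fun ω : ℕ → ℝ => Real.exp (θ * (-2 * D.lam * (ω 1 + h)))) := by fun_prop
  have h1 := M_block.J_block D 1 (fun ω => Real.exp (θ * (-2 * D.lam * (ω 1 + h)))) hg
    (fun ω ω' h => by
      have : ω 1 = ω' 1 := h 1 (by simp)
      simp only [this]) (fun ω => (Real.exp_pos _).le) m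
  have h2 : ∫ ω, Real.exp (θ * (-2 * D.lam * (ω 1 + h))) ∂D.P
      = mg D.ν (-2 * D.lam * θ) * Real.exp (-2 * D.lam * θ * h) := by
    have h3 : MeasurePreserving (Function.eval 1) (disorder D.ν) D.ν :=
      measurePreserving_eval_infinitePi (fun _ : ℕ => D.ν) 1
    unfold Data.P mg
    have h4 := h3.map_eq
    conv_rhs => rw [← h4]
    rw [integral_map h3.measurable.aemeasurable (by fun_prop), ← integral_mul_const]
    congr 1
    funext ω
    rw [← Real.exp_add]
    congr 1
    simp only [Function.eval]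
    ring
  have h5 : ∀ ω : ℕ → ℝ, Real.exp (θ * S (D.w h ω) 0 m)
      = ∏ i ∈ Finset.range m, Real.exp (θ * (-2 * D.lam * (ω (1 + i * 1) + h))) := by
    intro ω
    rw [← Real.exp_sum, ← Finset.mul_sum]
    congr 2
    unfold S
    induction m with
    | zero => simp
    | succ m ih =>
      have ih' := ih (M_block.J_block D 1 (fun ω => Real.exp (θ * (-2 * D.lam * (ω 1 + h)))) hg
        (fun ω ω' h => by
          have : ω 1 = ω' 1 := h 1 (by simp)
          simp only [this]) (fun ω => (Real.exp_pos _).le) m)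
      rw [Finset.sum_range_succ, ← ih', Finset.sum_Ioc_succ_top (by omega)]
      congr 1
      unfold Data.w
      congr 3
      omega
  have h6 : ∫ ω, Real.exp (θ * S (D.w h ω) 0 m) ∂D.P
      = (mg D.ν (-2 * D.lam * θ) * Real.exp (-2 * D.lam * θ * h)) ^ m := by
    simp only [h5]
    rw [h1, h2]
  refine ⟨?_, h6⟩
  by_contra hc
  rw [integral_undef hc] at h6
  have h7 : 0 < (mg D.ν (-2 * D.lam * θ) * Real.exp (-2 * D.lam * θ * h)) ^ m :=
    pow_pos (mul_pos (mg_pos D.ν D.expm _) (Real.exp_pos _)) _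
  linarith

lemma rpow_le_one_add {x g : ℝ} (hx : 0 ≤ x) (hg : 0 ≤ g) (hg1 : g ≤ 1) : x ^ g ≤ 1 + x := by
  rcases le_total x 1 with h | h
  · have := Real.rpow_le_one hx h hg
    linarith
  · calc x ^ g ≤ x ^ (1:ℝ) := Real.rpow_le_rpow_of_exponent_le h hg1
      _ = x := Real.rpow_one x
      _ ≤ 1 + x := by linarith

lemma phi_pos' (w : ℕ → ℝ) (i j : ℕ) : 0 < phi w i j := by
  unfold phi; positivity

lemma meas_phi (D : Data) (h : ℝ) (a b : ℕ) :
    Measurable (fun ω : ℕ → ℝ => phi (D.w h ω) a b) := M_meas.J_meas_phi D h a b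

lemma int_phi (D : Data) (h : ℝ) (m : ℕ) :
    Integrable (fun ω : ℕ → ℝ => phi (D.w h ω) 0 m) D.P := by
  have h1 := (int_exp_S D h 1 m).1
  simp only [one_mul] at h1
  unfold phi
  exact ((integrable_const _).add h1).div_const 2

lemma int_phi_rpow (D : Data) (h : ℝ) (m : ℕ) {g : ℝ} (hg : 0 ≤ g) (hg1 : g ≤ 1) :
    Integrable (fun ω : ℕ → ℝ => (phi (D.w h ω) 0 m) ^ g) D.P := by
  refine ((integrable_const (1:ℝ)).add (int_phi D h m)).mono'
    ((meas_phi D h 0 m).pow_const g).aestronglyMeasurable (Filter.Eventually.of_forall fun ω => ?_)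
  have hp := (phi_pos' (D.w h ω) 0 m)
  rw [Real.norm_eq_abs, abs_of_nonneg (Real.rpow_nonneg hp.le _)]
  exact rpow_le_one_add hp.le hg hg1

/-- the fractional moment of one excursion weight -/
noncomputable def em (D : Data) (g h : ℝ) (m : ℕ) : ℝ := ∫ ω, (phi (D.w h ω) 0 m) ^ g ∂D.P

/-- the fractional moment of the pinned partition function -/
noncomputable def am (D : Data) (g h : ℝ) (l : ℕ) : ℝ := ∫ ω, (G D.K (D.w h ω) 0 l) ^ g ∂D.P

lemma em_lower (D : Data) {g : ℝ} (hg : 0 < g) (hg1 : g < 1) (h : ℝ) (m : ℕ) :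
    (1 + min g (1 - g) / 2) *
        ((1 + (mg D.ν (-2 * D.lam * g) * Real.exp (-2 * D.lam * g * h)) ^ m) / 2)
      - min g (1 - g) / 2 *
        (mg D.ν (-2 * D.lam * (g / 2)) * Real.exp (-2 * D.lam * (g / 2) * h)) ^ m
      ≤ em D g h m := by
  have h1 := int_exp_S D h g m
  have h2 := int_exp_S D h (g / 2) m
  rw [← h1.2, ← h2.2]
  have hi : Integrable (fun ω : ℕ → ℝ => (1 + min g (1 - g) / 2) *
        ((1 + Real.exp (g * S (D.w h ω) 0 m)) / 2)
      - min g (1 - g) / 2 * Real.exp (g / 2 * S (D.w h ω) 0 m)) D.P :=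
    ((((integrable_const _).add h1.1).div_const 2).const_mul _).sub (h2.1.const_mul _)
  have h3 := integral_mono hi (int_phi_rpow D h m hg.le hg1.le) (fun ω => by
    unfold phi
    exact phi_rpow_ge hg hg1 (S (D.w h ω) 0 m))
  refine le_trans (le_of_eq ?_) h3
  have i1 : Integrable (fun ω : ℕ → ℝ => (1 + min g (1 - g) / 2) *
        ((1 + Real.exp (g * S (D.w h ω) 0 m)) / 2)) D.P :=
    (((integrable_const _).add h1.1).div_const 2).const_mul _
  have i2 : Integrable (fun ω : ℕ → ℝ =>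
      min g (1 - g) / 2 * Real.exp (g / 2 * S (D.w h ω) 0 m)) D.P := h2.1.const_mul _
  rw [integral_sub i1 i2,
    integral_const_mul, integral_const_mul, integral_div, integral_add (integrable_const _) h1.1]
  simp

end H987R2
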