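import Pool.Agent.H306R2.RG.Defs
import Pool.Agent.H306R2.RG.StubsB

set_option autoImplicit false

/-!
# Project RG, task KEG
-/

namespace Pool.Agent.H987R2.RGKEG

open Finset Filter Topology MeasureTheory
open Pool.Agent.H306R2.RZ Pool.Agent.H306R2.RG

noncomputable section

variable {φ : FD}

/-! ### the average `EF` -/

theorem EF_fin (F : ℝ → ℝ) (hF : TF F) (X : ℝ) (hX : 0 < X) :
    ∃ N : ℕ, ∀ d : ℕ, N ≤ d → F ((d : ℝ) / X) = 0 := by
  obtain ⟨R, hR⟩ := (show IsCompact (tsupport F) from hF.cpt).isBounded.subset_closedBall 0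
  refine ⟨⌊R * X⌋₊ + 1, fun d hd => ?_⟩
  by_contra h
  have h1 : (d : ℝ) / X ∈ tsupport F := subset_tsupport _ h
  have h2 := hR h1
  rw [Metric.mem_closedBall, dist_zero_right, Real.norm_eq_abs] at h2
  have h3 : (d : ℝ) / X ≤ R := le_trans (le_abs_self _) h2
  have h4 : (d : ℝ) ≤ R * X := (div_le_iff₀ hX).1 h3
  have h5 : R * X < (⌊R * X⌋₊ : ℝ) + 1 := Nat.lt_floor_add_one _
  have h6 : ((⌊R * X⌋₊ + 1 : ℕ) : ℝ) ≤ d := by exact_mod_cast hd
  push_cast at h6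
  linarith

open Classical in
theorem EF_sum (F : ℝ → ℝ) (X : ℝ) (N : ℕ) (hN : ∀ d : ℕ, N ≤ d → F ((d : ℝ) / X) = 0)
    (f : ℕ → ℝ) :
    EAg φ F X f = (∑ d ∈ range N, if φ.A d then F ((d : ℝ) / X) * f d else 0) / X := by
  unfold EAg
  rw [tsum_eq_sum (s := range N)]
  intro d hd
  rw [hN d (by simpa using hd)]
  simp

open Classical in
theorem EF_mono (F : ℝ → ℝ) (hF : TF F) (hF0 : ∀ x, 0 ≤ F x) (X : ℝ) (hX : 0 < X) (f g : ℕ → ℝ)
    (h : ∀ d : ℕ, φ.A d → F ((d : ℝ) / X) ≠ 0 → f d ≤ g d) : EAg φ F X f ≤ EAg φ F X g := by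
  obtain ⟨N, hN⟩ := EF_fin F hF X hX
  rw [EF_sum F X N hN, EF_sum F X N hN]
  refine div_le_div_of_nonneg_right (Finset.sum_le_sum fun d _ => ?_) hX.le
  by_cases hd : φ.A d
  · rw [if_pos hd, if_pos hd]
    by_cases h0 : F ((d : ℝ) / X) = 0
    · rw [h0]
      simp
    · exact mul_le_mul_of_nonneg_left (h d hd h0) (hF0 _)
  · rw [if_neg hd, if_neg hd]

open Classical in
theorem EF_add (F : ℝ → ℝ) (hF : TF F) (X : ℝ) (hX : 0 < X) (f g : ℕ → ℝ) :
    EAg φ F X (fun d => f d + g d) = EAg φ F X f + EAg φ F X g := by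
  obtain ⟨N, hN⟩ := EF_fin F hF X hX
  rw [EF_sum F X N hN, EF_sum F X N hN, EF_sum F X N hN, ← add_div, ← Finset.sum_add_distrib]
  congr 1
  refine Finset.sum_congr rfl fun d _ => ?_
  by_cases hd : φ.A d
  · simp only [if_pos hd]
    ring
  · simp only [if_neg hd]
    ring

open Classical in
theorem EF_smul (F : ℝ → ℝ) (hF : TF F) (X : ℝ) (hX : 0 < X) (c : ℝ) (f : ℕ → ℝ) :
    EAg φ F X (fun d => c * f d) = c * EAg φ F X f := by
  obtain ⟨N, hN⟩ := EF_fin F hF X hX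
  rw [EF_sum F X N hN, EF_sum F X N hN, ← mul_div_assoc, Finset.mul_sum]
  congr 1
  refine Finset.sum_congr rfl fun d _ => ?_
  by_cases hd : φ.A d
  · simp only [if_pos hd]
    ring
  · simp only [if_neg hd]
    ring

open Classical in
theorem EF_int (F : ℝ → ℝ) (hF : TF F) (X : ℝ) (hX : 0 < X) (a b : ℝ) (g : ℝ → ℕ → ℝ)
    (hg : ∀ d, IntervalIntegrable (fun β => g β d) volume a b) :
    EAg φ F X (fun d => ∫ β in a..b, g β d) = ∫ β in a..b, EAg φ F X (fun d => g β d) := by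
  obtain ⟨N, hN⟩ := EF_fin F hF X hX
  rw [EF_sum F X N hN]
  simp only [EF_sum F X N hN]
  rw [intervalIntegral.integral_div, intervalIntegral.integral_finsetSum]
  · congr 1
    refine Finset.sum_congr rfl fun d _ => ?_
    by_cases hd : φ.A d
    · simp only [if_pos hd]
      rw [intervalIntegral.integral_const_mul]
    · simp only [if_neg hd]
      rw [intervalIntegral.integral_zero]
  · intro d _
    by_cases hd : φ.A d
    · simp only [if_pos hd]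
      exact (hg d).const_mul _
    · simp only [if_neg hd]
      exact intervalIntegrable_const

open Classical in
theorem EF_intble (F : ℝ → ℝ) (hF : TF F) (X : ℝ) (hX : 0 < X) (a b : ℝ) (g : ℝ → ℕ → ℝ)
    (hg : ∀ d, IntervalIntegrable (fun β => g β d) volume a b) :
    IntervalIntegrable (fun β => EAg φ F X (fun d => g β d)) volume a b := by
  obtain ⟨N, hN⟩ := EF_fin F hF X hX
  simp only [EF_sum F X N hN]
  refine IntervalIntegrable.div_const ?_ X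
  have : (fun β => ∑ d ∈ range N, if φ.A d then F ((d : ℝ) / X) * g β d else 0) =
      ∑ d ∈ range N, fun β => if φ.A d then F ((d : ℝ) / X) * g β d else 0 := by
    funext β
    rw [Finset.sum_apply]
  rw [this]
  refine IntervalIntegrable.sum _ fun d _ => ?_
  by_cases hd : φ.A d
  · simp only [if_pos hd]
    exact (hg d).const_mul _
  · simp only [if_neg hd]
    exact intervalIntegrable_const

/-- Cauchy-Schwarz on `[-ℓ, ℓ]` -/
theorem cs_int (ℓ : ℝ) (hℓ : 0 < ℓ) (f : ℝ → ℝ) (hf : ContinuousOn f (Set.Icc (-ℓ) ℓ)) :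
    (∫ β in (-ℓ)..ℓ, |f β|) ^ 2 ≤ 2 * ℓ * ∫ β in (-ℓ)..ℓ, f β ^ 2 := by
  set I := ∫ β in (-ℓ)..ℓ, |f β| with hI
  set J := ∫ β in (-ℓ)..ℓ, f β ^ 2 with hJ
  have hle : -ℓ ≤ ℓ := by linarith
  have hf' : ContinuousOn f (Set.uIcc (-ℓ) ℓ) := by rwa [Set.uIcc_of_le hle]
  have i1 : IntervalIntegrable (fun β => |f β|) volume (-ℓ) ℓ := hf'.abs.intervalIntegrable
  have i2 : IntervalIntegrable (fun β => f β ^ 2) volume (-ℓ) ℓ := (hf'.pow 2).intervalIntegrable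
  set m := I / (2 * ℓ) with hm
  have h0 : 0 ≤ ∫ β in (-ℓ)..ℓ, (|f β| - m) ^ 2 :=
    intervalIntegral.integral_nonneg hle fun β _ => sq_nonneg _
  have h1 : ∫ β in (-ℓ)..ℓ, (|f β| - m) ^ 2 = J - 2 * m * I + 2 * ℓ * m ^ 2 := by
    have e : ∀ β, (|f β| - m) ^ 2 = f β ^ 2 - 2 * m * |f β| + m ^ 2 := by
      intro β
      have := sq_abs (f β)
      nlinarith
    simp only [e]
    rw [intervalIntegral.integral_add (i2.sub (i1.const_mul _)) intervalIntegrable_const,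
      intervalIntegral.integral_sub i2 (i1.const_mul _), intervalIntegral.integral_const_mul,
      intervalIntegral.integral_const, ← hI, ← hJ, smul_eq_mul]
    ring
  rw [h1] at h0
  have h2 : 2 * ℓ * m = I := by
    rw [hm]
    field_simp
  nlinarith

open Classical in
/-- Sobolev inequality in the parameter -/
theorem sob (F : ℝ → ℝ) (hF : TF F) (hF0 : ∀ x, 0 ≤ F x) (X : ℝ) (hX : 0 < X) (ℓ : ℝ)
    (hℓ : 0 < ℓ) (v v' : ℝ → ℕ → ℝ) (βd : ℕ → ℝ) (M : ℝ)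
    (hv : ∀ β d, |β| ≤ ℓ → HasDerivAt (fun z => v z d) (v' β d) β)
    (hc : ∀ d, ContinuousOn (fun β => v' β d) (Set.Icc (-ℓ) ℓ))
    (hM : ∀ β, |β| ≤ ℓ → EAg φ F X (fun d => v' β d ^ 2) ≤ M)
    (hβ : ∀ d : ℕ, F ((d : ℝ) / X) ≠ 0 → |βd d| ≤ ℓ) :
    EAg φ F X (fun d => (v (βd d) d - v 0 d) ^ 2) ≤ 4 * ℓ ^ 2 * M := by
  have hle : -ℓ ≤ ℓ := by linarith
  have hsub : ∀ β : ℝ, |β| ≤ ℓ → Set.uIcc 0 β ⊆ Set.Icc (-ℓ) ℓ := by
    intro β hb z hz
    rw [abs_le] at hb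
    rw [Set.mem_uIcc] at hz
    constructor <;> rcases hz with ⟨h1, h2⟩ | ⟨h1, h2⟩ <;> linarith
  have h1 : ∀ d : ℕ, φ.A d → F ((d : ℝ) / X) ≠ 0 →
      (v (βd d) d - v 0 d) ^ 2 ≤ 2 * ℓ * ∫ β in (-ℓ)..ℓ, v' β d ^ 2 := by
    intro d _ hd
    have hb := hβ d hd
    have hs := hsub _ hb
    have e1 : ∫ β in (0 : ℝ)..(βd d), v' β d = v (βd d) d - v 0 d := by
      refine intervalIntegral.integral_eq_sub_of_hasDerivAt (f := fun z => v z d) (fun z hz => ?_) ?_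
      · have := hs hz
        exact hv z d (abs_le.2 ⟨this.1, this.2⟩)
      · exact ((hc d).mono hs).intervalIntegrable
    have e2 : |v (βd d) d - v 0 d| ≤ ∫ β in (-ℓ)..ℓ, |v' β d| := by
      rw [← e1]
      have hi : IntegrableOn (fun β => |v' β d|) (Set.Icc (-ℓ) ℓ) volume :=
        (hc d).abs.integrableOn_Icc
      calc |∫ β in (0 : ℝ)..(βd d), v' β d| ≤ ∫ β in Set.uIoc 0 (βd d), |v' β d| := by
            have := intervalIntegral.norm_integral_le_integral_norm_uIoc (f := fun β => v' β d)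
              (a := 0) (b := βd d) (μ := volume)
            simpa [Real.norm_eq_abs] using this
        _ ≤ ∫ β in Set.Icc (-ℓ) ℓ, |v' β d| := by
            refine setIntegral_mono_set hi (Filter.Eventually.of_forall fun _ => abs_nonneg _) ?_
            exact (Set.uIoc_subset_uIcc.trans hs).eventuallyLE
        _ = ∫ β in (-ℓ)..ℓ, |v' β d| := by
            rw [intervalIntegral.integral_of_le hle, integral_Icc_eq_integral_Ioc]
    calc (v (βd d) d - v 0 d) ^ 2 = |v (βd d) d - v 0 d| ^ 2 := (sq_abs _).symm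
      _ ≤ (∫ β in (-ℓ)..ℓ, |v' β d|) ^ 2 := pow_le_pow_left₀ (abs_nonneg _) e2 2
      _ ≤ _ := cs_int ℓ hℓ _ (hc d)
  have hint : ∀ d, IntervalIntegrable (fun β => v' β d ^ 2) volume (-ℓ) ℓ := by
    intro d
    have : ContinuousOn (fun β => v' β d) (Set.uIcc (-ℓ) ℓ) := by
      rw [Set.uIcc_of_le hle]
      exact hc d
    exact (this.pow 2).intervalIntegrable
  calc EAg φ F X (fun d => (v (βd d) d - v 0 d) ^ 2)
      ≤ EAg φ F X (fun d => 2 * ℓ * ∫ β in (-ℓ)..ℓ, v' β d ^ 2) := EF_mono F hF hF0 X hX _ _ h1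
    _ = 2 * ℓ * ∫ β in (-ℓ)..ℓ, EAg φ F X (fun d => v' β d ^ 2) := by
        rw [EF_smul F hF X hX, EF_int F hF X hX _ _ (fun β d => v' β d ^ 2) hint]
    _ ≤ 2 * ℓ * ∫ β in (-ℓ)..ℓ, M := by
        refine mul_le_mul_of_nonneg_left ?_ (by linarith)
        refine intervalIntegral.integral_mono_on hle
          (EF_intble F hF X hX _ _ (fun β d => v' β d ^ 2) hint) intervalIntegrable_const ?_
        intro β hb
        exact hM β (abs_le.2 ⟨hb.1, hb.2⟩)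
    _ = 4 * ℓ ^ 2 * M := by
        rw [intervalIntegral.integral_const, smul_eq_mul]
        ring

/-! ### finite sums -/

theorem log_large (L s : ℝ) (hL : 0 < L) :
    ∀ n : ℕ, ⌊Real.exp (s * L)⌋₊ + 1 ≤ n → s < Real.log n / L := by
  intro n hn
  have h1 : Real.exp (s * L) < (⌊Real.exp (s * L)⌋₊ : ℝ) + 1 := Nat.lt_floor_add_one _
  have h2 : ((⌊Real.exp (s * L)⌋₊ + 1 : ℕ) : ℝ) ≤ n := by exact_mod_cast hn
  push_cast at h2
  have h3 : Real.exp (s * L) < n := lt_of_lt_of_le h1 h2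
  have h4 : s * L < Real.log n := by
    rw [Real.lt_log_iff_exp_lt (lt_trans (Real.exp_pos _) h3)]
    exact h3
  rwa [lt_div_iff₀ hL]

theorem Nd_sum (q : ℕ) (L : ℝ) (w : ℝ → ℝ) (N : ℕ) (hN : ∀ n : ℕ, N ≤ n → w (Real.log n / L) = 0)
    (d : ℕ) :
    Ndg φ q L w d = ∑ n ∈ range N, if Nat.Coprime n q then
      jo φ d n / Real.sqrt n * w (Real.log n / L) else 0 := by
  unfold Ndg
  rw [tsum_eq_sum (s := range N)]
  intro n hn
  rw [hN n (by simpa using hn)]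
  simp

theorem jo_abs (d n : ℕ) : |jo φ d n| ≤ 1 := by
  unfold jo js
  split_ifs
  · rcases jacobiSym.trichotomy (φ.e * (d : ℤ)) n with h | h | h <;> rw [h] <;> norm_num
  · norm_num

theorem moebius_abs (n : ℕ) : |((ArithmeticFunction.moebius n : ℤ) : ℝ)| ≤ 1 := by
  have := ArithmeticFunction.abs_moebius_le_one (n := n)
  exact_mod_cast this

theorem Md_bound (q : ℕ) (hq : q ≠ 1) (L θ B' : ℝ) (hL : 0 < L) (hθ : 0 < θ) (hθ1 : θ < 1)
    (Q : ℝ → ℝ)
    (hQ : Wt θ Q) (hB : ∀ y, |Q y| ≤ B') (d : ℕ) : |Mdg φ q L Q d| ≤ 2 * Real.exp L * B' := by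
  have hB0 : 0 ≤ B' := le_trans (abs_nonneg _) (hB 0)
  set N := ⌊Real.exp (θ * L)⌋₊ + 1 with hN
  have hz : ∀ n : ℕ, N ≤ n → Q (Real.log n / L) = 0 := by
    intro n hn
    by_contra h
    have h1 := (hQ.supp _ h).2
    have h2 := log_large L θ hL n hn
    linarith
  have e : Mdg φ q L Q d = ∑ n ∈ range N, if Nat.Coprime n q then
      ((ArithmeticFunction.moebius n : ℤ) : ℝ) * jo φ d n / Real.sqrt n *
        Q (Real.log n / L) else 0 := by
    unfold Mdg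
    rw [tsum_eq_sum (s := range N)]
    intro n hn
    rw [hz n (by simpa using hn)]
    simp
  rw [e]
  have hterm : ∀ n ∈ range N, |(if Nat.Coprime n q then
      ((ArithmeticFunction.moebius n : ℤ) : ℝ) * jo φ d n / Real.sqrt n *
        Q (Real.log n / L) else 0)| ≤ B' := by
    intro n _
    by_cases hc : Nat.Coprime n q
    · rw [if_pos hc]
      have hn0 : n ≠ 0 := by
        rintro rfl
        rw [Nat.coprime_zero_left] at hc
        exact hq hc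
      have hn1 : (1 : ℝ) ≤ Real.sqrt n := by
        rw [Real.one_le_sqrt]
        exact_mod_cast Nat.one_le_iff_ne_zero.2 hn0
      rw [abs_mul, abs_div, abs_mul, abs_of_nonneg (Real.sqrt_nonneg (n : ℝ))]
      have h1 : |((ArithmeticFunction.moebius n : ℤ) : ℝ)| * |jo φ d n| / Real.sqrt n
          ≤ 1 := by
        rw [div_le_one (by linarith)]
        calc |((ArithmeticFunction.moebius n : ℤ) : ℝ)| * |jo φ d n| ≤ 1 * 1 :=
              mul_le_mul (moebius_abs n) (jo_abs d n) (abs_nonneg _) zero_le_one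
          _ ≤ Real.sqrt n := by linarith
      calc _ ≤ 1 * B' := mul_le_mul h1 (hB _) (abs_nonneg _) zero_le_one
        _ = B' := one_mul _
    · rw [if_neg hc, abs_zero]
      exact hB0
  calc _ ≤ ∑ n ∈ range N, |(if Nat.Coprime n q then
      ((ArithmeticFunction.moebius n : ℤ) : ℝ) * jo φ d n / Real.sqrt n *
        Q (Real.log n / L) else 0)| := Finset.abs_sum_le_sum_abs _ _
    _ ≤ ∑ n ∈ range N, B' := Finset.sum_le_sum hterm
    _ = N * B' := by rw [Finset.sum_const, card_range, nsmul_eq_mul]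
    _ ≤ 2 * Real.exp L * B' := by
        refine mul_le_mul_of_nonneg_right ?_ hB0
        have h1 : ((⌊Real.exp (θ * L)⌋₊ : ℕ) : ℝ) ≤ Real.exp (θ * L) :=
          Nat.floor_le (Real.exp_pos _).le
        have h2 : Real.exp (θ * L) ≤ Real.exp L := by
          apply Real.exp_le_exp.2
          nlinarith
        have h3 : 1 ≤ Real.exp L := Real.one_le_exp hL.le
        rw [hN]
        push_cast
        linarith

/-! ### Leibniz -/

theorem top_ne : ((⊤ : ℕ∞) : WithTop ℕ∞) ≠ 0 := by simp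

theorem kappa_bd (δ e : ℝ) (κ : ℝ → ℝ) (hκ : KP δ e κ) (j : ℕ) :
    ∃ C : ℝ, ∀ y, ‖iteratedFDeriv ℝ j κ y‖ ≤ C := by
  have hc : HasCompactSupport κ := by
    refine HasCompactSupport.intro (K := Set.Icc (-e) (1 / 2 + 3 * δ)) isCompact_Icc ?_
    intro y hy
    by_contra h
    exact hy (hκ.supp y h)
  have h1 : HasCompactSupport (iteratedFDeriv ℝ j κ) := hc.iteratedFDeriv j
  have h2 : Continuous (iteratedFDeriv ℝ j κ) :=
    hκ.smooth.continuous_iteratedFDeriv (by exact_mod_cast le_top)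
  exact h1.exists_bound_of_continuous h2

theorem leib (k : ℕ) (δ e : ℝ) (κ : ℝ → ℝ) (hκ : KP δ e κ) (he1 : e ≤ 1)
    (hδ : 1 / 2 + 3 * δ < 1) :
    ∃ K : ℝ, 0 < K ∧ ∀ (f : ℝ → ℝ) (A : ℝ), ContDiff ℝ ((⊤ : ℕ∞) : WithTop ℕ∞) f →
      (∀ y, -1 ≤ y → y ≤ 2 → ∀ j ≤ k, |iteratedDeriv j f y| ≤ A) →
      Bd k (fun y => f y * κ y) (K * A) := by
  choose c hc using kappa_bd δ e κ hκ
  have hc0 : ∀ j, 0 ≤ c j := fun j => le_trans (norm_nonneg _) (hc j 0)
  set S := ∑ j ∈ range (k + 1), c j with hS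
  have hS0 : 0 ≤ S := Finset.sum_nonneg fun j _ => hc0 j
  have hcS : ∀ j ≤ k, c j ≤ S := fun j hj =>
    Finset.single_le_sum (f := c) (fun i _ => hc0 i) (by simpa using Nat.lt_succ_of_le hj)
  refine ⟨2 ^ k * S + 1, by positivity, fun f A hf hA j hj y => ?_⟩
  have hA0 : 0 ≤ A := le_trans (abs_nonneg _) (hA 0 (by norm_num) (by norm_num) 0 (Nat.zero_le _))
  have hL := norm_iteratedFDeriv_mul_le (𝕜 := ℝ) (n := j) hf hκ.smooth y
    (by exact_mod_cast le_top)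
  rw [← Real.norm_eq_abs, ← norm_iteratedFDeriv_eq_norm_iteratedDeriv]
  refine hL.trans ?_
  have hterm : ∀ i ∈ range (j + 1), (j.choose i : ℝ) * ‖iteratedFDeriv ℝ i f y‖ *
      ‖iteratedFDeriv ℝ (j - i) κ y‖ ≤ (j.choose i : ℝ) * (A * S) := by
    intro i hi
    have hi' : i ≤ j := by simpa [Nat.lt_succ_iff] using hi
    rw [mul_assoc]
    refine mul_le_mul_of_nonneg_left ?_ (Nat.cast_nonneg _)
    by_cases hy : -1 ≤ y ∧ y ≤ 2
    · refine mul_le_mul ?_ ((hc _ y).trans (hcS _ (by omega))) (norm_nonneg _) hA0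
      rw [norm_iteratedFDeriv_eq_norm_iteratedDeriv, Real.norm_eq_abs]
      exact hA y hy.1 hy.2 i (by omega)
    · have hz : iteratedFDeriv ℝ (j - i) κ y = 0 := by
        by_contra h
        have h1 : y ∈ tsupport κ := support_iteratedFDeriv_subset (𝕜 := ℝ) (j - i) h
        have h2 : tsupport κ ⊆ Set.Icc (-e) (1 / 2 + 3 * δ) := by
          refine closure_minimal (fun z hz => ?_) isClosed_Icc
          exact hκ.supp z hz
        have h3 := h2 h1
        exact hy ⟨by linarith [h3.1], by linarith [h3.2]⟩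
      rw [hz, norm_zero, mul_zero]
      positivity
  calc _ ≤ ∑ i ∈ range (j + 1), (j.choose i : ℝ) * (A * S) := Finset.sum_le_sum hterm
    _ = 2 ^ j * (A * S) := by
        rw [← Finset.sum_mul]
        congr 1
        exact_mod_cast Nat.sum_range_choose j
    _ ≤ 2 ^ k * (A * S) := by
        refine mul_le_mul_of_nonneg_right ?_ (by positivity)
        exact pow_le_pow_right₀ (by norm_num) hj
    _ ≤ (2 ^ k * S + 1) * A := by nlinarith

theorem wt_mul (δ e : ℝ) (κ : ℝ → ℝ) (hκ : KP δ e κ) (he1 : e ≤ 1) (f : ℝ → ℝ)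
    (hf : ContDiff ℝ ((⊤ : ℕ∞) : WithTop ℕ∞) f) : Wt (1 / 2 + 3 * δ) (fun y => f y * κ y) := by
  refine ⟨hf.mul hκ.smooth, fun y hy => ?_⟩
  have h : κ y ≠ 0 := right_ne_zero_of_mul hy
  have := hκ.supp y h
  exact ⟨by linarith [this.1], this.2⟩

theorem sq3 (a b c : ℝ) : (a + b + c) ^ 2 ≤ 3 * a ^ 2 + 3 * b ^ 2 + 3 * c ^ 2 := by
  nlinarith [sq_nonneg (a - b), sq_nonneg (b - c), sq_nonneg (a - c)]

theorem idd_succ (j : ℕ) (Φ : ℝ → ℝ) : iteratedDeriv j (deriv Φ) = iteratedDeriv (j + 1) Φ := by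
  rw [iteratedDeriv_succ']

theorem KEG (φ : FD) (hφ : FG φ) (F : ℝ → ℝ) (hF : TF F) (hF0 : ∀ x, 0 ≤ F x) (δ e θ : ℝ)
    (hδ : 0 < δ) (he : 0 < e) (he1 : e ≤ 1) (hA : Adm2 (1 / 2 + 3 * δ) θ) (κ : ℝ → ℝ)
    (hκ : KP δ e κ) (X1 : ℝ) (hX1 : 0 ≤ X1) :
    ∃ (C L0 : ℝ) (k : ℕ), 0 < C ∧ 0 < L0 ∧ ∀ (L : ℝ) (Φ Q : ℝ → ℝ) (B B' : ℝ), L0 ≤ L →
      ContDiff ℝ ((⊤ : ℕ∞) : WithTop ℕ∞) Φ → (∀ τ, τ ≤ -δ → Φ τ = 0) →
      (∀ j ≤ k, ∀ τ, |iteratedDeriv j Φ τ| ≤ B * Real.exp (X1 * |τ|)) →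
      (∀ j : ℕ, ∃ B' : ℝ, ∀ τ, |iteratedDeriv j Φ τ| ≤ B' * Real.exp (X1 * |τ|)) →
      Wt θ Q → Bd k Q B' →
      EAg φ F (Real.exp L) (fun d => ((Nfg φ L (KGg φ L (beg φ L d) Φ) d -
        ceg φ * Ndg φ 2 L (fun y => Φ (1 / 2 - y) * κ y) d) * Mdg φ 2 L Q d) ^ 2) ≤
        C * B ^ 2 * B' ^ 2 / L ^ 2 := by
  obtain ⟨c1, c2, b, L8, hc1, hb, h8⟩ := StubsB.C8G φ hφ F hF
  obtain ⟨CU, LU, kU, hCU, hU⟩ := hφ.ub F hF 2 (by decide) (by norm_num) 1 one_pos _ _ hA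
  obtain ⟨CC, LC, hCC, hLC, hC⟩ := StubsB.KCG φ hφ kU b X1 hb.le hX1
  obtain ⟨CT, LT, hCT, hT⟩ := StubsB.TRUG φ hφ δ e b 3 hδ he hb.le κ hκ
  obtain ⟨K, hK, hLeib⟩ := leib kU δ e κ hκ he1 hA.hs1
  -- the average of `1`
  obtain ⟨E1, hE1, LE, hE⟩ : ∃ E1 : ℝ, 0 < E1 ∧ ∃ LE : ℝ, ∀ L : ℝ, LE ≤ L →
      EAg φ F (Real.exp L) (fun _ => 1) ≤ E1 := by
    have h := hφ.ef1 F hF 1 one_pos
    have h2 := h.eventually (gt_mem_nhds (show φ.δ * Ft F 0 < |φ.δ * Ft F 0| + 1 by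
      have := le_abs_self (φ.δ * Ft F 0)
      linarith))
    obtain ⟨LE, hLE⟩ := Filter.eventually_atTop.1 h2
    refine ⟨|φ.δ * Ft F 0| + 1, by positivity, LE, fun L hL => ?_⟩
    have := hLE L hL
    rw [one_mul] at this
    exact this.le
  set s := 1 / 2 + 3 * δ with hs
  refine ⟨3 * (4 * CT ^ 2 * E1) + 3 * (CU * (K * CC) ^ 2) + 3 * (4 * b ^ 2 * (CU * (K * CC) ^ 2)),
    max (max (max L8 LU) (max LC LT)) (max (max LE X1) 1), kU + 2, by positivity, by positivity,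
    fun L Φ Q B B' hL hΦ hΦ0 hΦB hΦB' hQ hQB => ?_⟩
  have hL8 : L8 ≤ L := le_trans (by simp) hL
  have hLU : LU ≤ L := le_trans (by simp) hL
  have hLC' : LC ≤ L := le_trans (by simp) hL
  have hLT : LT ≤ L := le_trans (by simp) hL
  have hLE : LE ≤ L := le_trans (by simp) hL
  have hLX : X1 ≤ L := le_trans (by simp) hL
  have hL1 : 1 ≤ L := le_trans (by simp) hL
  have hL0 : 0 < L := by linarith
  have hX : 0 < Real.exp L := Real.exp_pos L
  have hB0 : 0 ≤ B := by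
    have h := hΦB 0 (Nat.zero_le _) 0
    rw [abs_zero, mul_zero, Real.exp_zero, mul_one] at h
    exact le_trans (abs_nonneg _) h
  have hQB0 : ∀ y, |Q y| ≤ B' := by
    intro y
    have := hQB 0 (Nat.zero_le _) y
    rwa [iteratedDeriv_zero] at this
  have hB'0 : 0 ≤ B' := le_trans (abs_nonneg _) (hQB0 0)
  have hQBk : Bd kU Q B' := fun j hj y => hQB j (by omega) y
  have hℓ : 0 < b / L := div_pos hb hL0
  -- consequences of KC
  have hKC : ∀ β : ℝ, |β| ≤ b / L → (∀ y, -1 ≤ y → y ≤ 2 → ∀ j ≤ kU,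
      |iteratedDeriv j (KGg φ L β Φ) y| ≤ CC * B ∧
      |iteratedDeriv j (KGg φ L β Φ) y - ceg φ * iteratedDeriv j (fun z => Φ (1 / 2 - z)) y| ≤
        CC * B / L) ∧
    ContDiff ℝ ((⊤ : ℕ∞) : WithTop ℕ∞) (KGg φ L β Φ) ∧
    (∀ y, HasDerivAt (fun z => KGg φ L z Φ y) (KGg φ L β (deriv Φ) y) β) := fun β hβ =>
    hC L β B Φ hLC' hβ hΦ (fun j hj τ => hΦB j (by omega) τ) hΦB'
  have hΦd : ContDiff ℝ ((⊤ : ℕ∞) : WithTop ℕ∞) (deriv Φ) := by
    have := hΦ
    rw [show ((⊤ : ℕ∞) : WithTop ℕ∞) = ((⊤ : ℕ∞) : WithTop ℕ∞) + 1 by rfl] at this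
    exact (contDiff_succ_iff_deriv.1 this).2.2
  have hKC' : ∀ β : ℝ, |β| ≤ b / L → (∀ y, -1 ≤ y → y ≤ 2 → ∀ j ≤ kU,
      |iteratedDeriv j (KGg φ L β (deriv Φ)) y| ≤ CC * B ∧
      |iteratedDeriv j (KGg φ L β (deriv Φ)) y -
        ceg φ * iteratedDeriv j (fun z => (deriv Φ) (1 / 2 - z)) y| ≤ CC * B / L) ∧
    ContDiff ℝ ((⊤ : ℕ∞) : WithTop ℕ∞) (KGg φ L β (deriv Φ)) ∧
    (∀ y, HasDerivAt (fun z => KGg φ L z (deriv Φ) y) (KGg φ L β (deriv (deriv Φ)) y) β) := fun β hβ =>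
    hC L β B (deriv Φ) hLC' hβ hΦd (fun j hj τ => by
      rw [idd_succ]
      exact hΦB (j + 1) (by omega) τ) (fun j => by
      rw [idd_succ]
      exact hΦB' (j + 1))
  -- finite sums
  set N := ⌊Real.exp (s * L)⌋₊ + 1 with hN
  have hNz : ∀ f : ℝ → ℝ, ∀ n : ℕ, N ≤ n → (fun y => f y * κ y) (Real.log n / L) = 0 := by
    intro f n hn
    have h1 := log_large L s hL0 n hn
    have h2 : κ (Real.log n / L) = 0 := by
      by_contra h
      have := (hκ.supp _ h).2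
      linarith
    simp only [h2, mul_zero]
  -- the three pieces
  set U : ℝ → ℕ → ℝ := fun β d => Ndg φ 2 L (fun y => KGg φ L β Φ y * κ y) d with hUdef
  set U' : ℝ → ℕ → ℝ := fun β d => Ndg φ 2 L (fun y => KGg φ L β (deriv Φ) y * κ y) d with hU'def
  set D0 : ℕ → ℝ := fun d => Ndg φ 2 L (fun y => (KGg φ L 0 Φ y - ceg φ * Φ (1 / 2 - y)) * κ y) d with hD0
  have hder : ∀ (Ψ : ℝ → ℝ) (β : ℝ) (d : ℕ),
      (∀ y, HasDerivAt (fun z => KGg φ L z Ψ y) (KGg φ L β (deriv Ψ) y) β) →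
      HasDerivAt (fun z => Ndg φ 2 L (fun y => KGg φ L z Ψ y * κ y) d)
        (Ndg φ 2 L (fun y => KGg φ L β (deriv Ψ) y * κ y) d) β := by
    intro Ψ β d hΨ
    have e1 : (fun z => Ndg φ 2 L (fun y => KGg φ L z Ψ y * κ y) d) = fun z => ∑ n ∈ range N,
        if Nat.Coprime n 2 then jo φ d n / Real.sqrt n *
          (KGg φ L z Ψ (Real.log n / L) * κ (Real.log n / L)) else 0 := by
      funext z
      exact Nd_sum 2 L _ N (hNz _) d
    rw [e1, Nd_sum 2 L _ N (hNz _) d]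
    refine HasDerivAt.fun_sum fun n _ => ?_
    by_cases hn : Nat.Coprime n 2
    · simp only [if_pos hn]
      exact ((hΨ _).mul_const _).const_mul _
    · simp only [if_neg hn]
      exact hasDerivAt_const _ _
  have hU0 : ∀ β d, |β| ≤ b / L → HasDerivAt (fun z => U z d) (U' β d) β := fun β d hβ =>
    hder Φ β d (hKC β hβ).2.2
  have hU'c : ∀ d, ContinuousOn (fun β => U' β d) (Set.Icc (-(b / L)) (b / L)) := by
    intro d β hβ
    exact (hder (deriv Φ) β d (hKC' β (abs_le.2 ⟨hβ.1, hβ.2⟩)).2.2).continuousAt.continuousWithinAt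
  have hsplit : ∀ β d, ceg φ * Ndg φ 2 L (fun y => Φ (1 / 2 - y) * κ y) d =
      U β d - D0 d - (U β d - U 0 d) := by
    intro β d
    rw [hUdef, hD0]
    simp only
    rw [Nd_sum 2 L _ N (hNz (fun y => Φ (1 / 2 - y))) d,
      Nd_sum 2 L (fun y => KGg φ L 0 Φ y * κ y) N (hNz (fun y => KGg φ L 0 Φ y)) d,
      Nd_sum 2 L (fun y => (KGg φ L 0 Φ y - ceg φ * Φ (1 / 2 - y)) * κ y) N
        (hNz (fun y => KGg φ L 0 Φ y - ceg φ * Φ (1 / 2 - y))) d]
    have e : ∀ x y z w : ℝ, z = w - x → x = y - z - (y - w) := fun x y z w h => by linarith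
    apply e
    rw [Finset.mul_sum, ← Finset.sum_sub_distrib]
    refine Finset.sum_congr rfl fun n _ => ?_
    by_cases hn : Nat.Coprime n 2
    · simp only [if_pos hn]
      ring
    · simp only [if_neg hn]
      ring
  have h00 : |(0 : ℝ)| ≤ b / L := by rw [abs_zero]; exact hℓ.le
  -- UBA in the form of a bound for the mean square
  have hUBA : ∀ (w : ℝ → ℝ) (A : ℝ), Wt s w → Bd kU w A →
      EAg φ F (Real.exp L) (fun d => (Ndg φ 2 L w d * Mdg φ 2 L Q d) ^ 2) ≤ CU * A ^ 2 * B' ^ 2 := by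
    intro w A hw hA
    have h := hU L hLU w w Q Q A A B' B' hw hw hQ hQ hA hA hQBk hQBk
    rw [one_mul] at h
    have h2 := le_trans (le_abs_self _) h
    unfold TT at h2
    calc EAg φ F (Real.exp L) (fun d => (Ndg φ 2 L w d * Mdg φ 2 L Q d) ^ 2)
        = EAg φ F (Real.exp L) (fun d => Ndg φ 2 L w d * Mdg φ 2 L Q d * (Ndg φ 2 L w d * Mdg φ 2 L Q d)) := by
          congr 1
          funext d
          ring
      _ ≤ CU * A * A * B' * B' := h2
      _ = _ := by ring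
  -- piece 1
  have hP1 : EAg φ F (Real.exp L) (fun d => ((Nfg φ L (KGg φ L (beg φ L d) Φ) d - U (beg φ L d) d) *
      Mdg φ 2 L Q d) ^ 2) ≤ 4 * CT ^ 2 * E1 * B ^ 2 * B' ^ 2 / L ^ 2 := by
    have h1 : ∀ d : ℕ, φ.A d → F ((d : ℝ) / Real.exp L) ≠ 0 →
        ((Nfg φ L (KGg φ L (beg φ L d) Φ) d - U (beg φ L d) d) * Mdg φ 2 L Q d) ^ 2 ≤
          4 * CT ^ 2 * B ^ 2 * B' ^ 2 / L ^ 2 * 1 := by
      intro d hd hFd
      have hβ := (h8 L hL8 d hFd).1
      have hR := hT L (beg φ L d) B Φ d hLT hβ hΦ.continuous.measurable hΦ0 (fun τ => by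
        have h := hΦB 0 (Nat.zero_le _) τ
        rw [iteratedDeriv_zero] at h
        refine h.trans (mul_le_mul_of_nonneg_left (Real.exp_le_exp.2 ?_) hB0)
        exact mul_le_mul_of_nonneg_right hLX (abs_nonneg _))
      have hM := Md_bound (φ := φ) 2 (by norm_num) L θ B' hL0 hA.hθ (by linarith [hA.hθ1]) Q hQ hQB0 d
      have h2 : |(Nfg φ L (KGg φ L (beg φ L d) Φ) d - U (beg φ L d) d) * Mdg φ 2 L Q d| ≤
          (CT * B * Real.exp (-(3 * L))) * (2 * Real.exp L * B') := by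
        rw [abs_mul]
        exact mul_le_mul hR hM (abs_nonneg _) (by positivity)
      have h3 : (CT * B * Real.exp (-(3 * L))) * (2 * Real.exp L * B') ≤ 2 * CT * B * B' / L := by
        have e1 : Real.exp (-(3 * L)) * Real.exp L = Real.exp (-(2 * L)) := by
          rw [← Real.exp_add]
          congr 1
          ring
        have e2 : Real.exp (-(2 * L)) ≤ 1 / L := by
          rw [Real.exp_neg, one_div]
          apply inv_anti₀ hL0
          have := Real.add_one_le_exp (2 * L)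
          linarith
        calc (CT * B * Real.exp (-(3 * L))) * (2 * Real.exp L * B')
            = 2 * CT * B * B' * (Real.exp (-(3 * L)) * Real.exp L) := by ring
          _ ≤ 2 * CT * B * B' * (1 / L) := by
              rw [e1]
              exact mul_le_mul_of_nonneg_left e2 (by positivity)
          _ = _ := by ring
      rw [← sq_abs]
      calc |(Nfg φ L (KGg φ L (beg φ L d) Φ) d - U (beg φ L d) d) * Mdg φ 2 L Q d| ^ 2
          ≤ (2 * CT * B * B' / L) ^ 2 := pow_le_pow_left₀ (abs_nonneg _) (h2.trans h3) 2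
        _ = _ := by ring
    calc _ ≤ EAg φ F (Real.exp L) (fun d => 4 * CT ^ 2 * B ^ 2 * B' ^ 2 / L ^ 2 * 1) :=
          EF_mono F hF hF0 _ hX _ _ h1
      _ = 4 * CT ^ 2 * B ^ 2 * B' ^ 2 / L ^ 2 * EAg φ F (Real.exp L) (fun _ => 1) :=
          EF_smul F hF _ hX _ (fun _ => 1)
      _ ≤ 4 * CT ^ 2 * B ^ 2 * B' ^ 2 / L ^ 2 * E1 :=
          mul_le_mul_of_nonneg_left (hE L hLE) (by positivity)
      _ = _ := by ring
  -- piece 2
  have hP2 : EAg φ F (Real.exp L) (fun d => (D0 d * Mdg φ 2 L Q d) ^ 2) ≤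
      CU * (K * CC) ^ 2 * B ^ 2 * B' ^ 2 / L ^ 2 := by
    have hcΦ : ContDiff ℝ ((⊤ : ℕ∞) : WithTop ℕ∞) (fun z => Φ (1 / 2 - z)) :=
      hΦ.comp (contDiff_const.sub contDiff_id)
    have hcd : ContDiff ℝ ((⊤ : ℕ∞) : WithTop ℕ∞) (fun y => KGg φ L 0 Φ y - ceg φ * Φ (1 / 2 - y)) :=
      (hKC 0 h00).2.1.sub (contDiff_const.mul hcΦ)
    have hbd := hLeib (fun y => KGg φ L 0 Φ y - ceg φ * Φ (1 / 2 - y)) (CC * B / L) hcd (by
      intro y h1 h2 j hj
      have h3 := ((hKC 0 h00).1 y h1 h2 j hj).2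
      have h4 : iteratedDeriv j (fun y => KGg φ L 0 Φ y - ceg φ * Φ (1 / 2 - y)) y =
          iteratedDeriv j (KGg φ L 0 Φ) y - ceg φ * iteratedDeriv j (fun z => Φ (1 / 2 - z)) y := by
        have h5 := iteratedDeriv_sub (n := j) (f := KGg φ L 0 Φ)
          (g := fun z => ceg φ * Φ (1 / 2 - z)) (x := y)
          ((hKC 0 h00).2.1.contDiffAt.of_le (by exact_mod_cast le_top))
          ((contDiff_const.mul hcΦ).contDiffAt.of_le (by exact_mod_cast le_top))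
        have h6 : iteratedDeriv j (fun z => ceg φ * Φ (1 / 2 - z)) y =
            ceg φ * iteratedDeriv j (fun z => Φ (1 / 2 - z)) y :=
          iteratedDeriv_const_mul_field (ceg φ) (fun z => Φ (1 / 2 - z))
        rw [← h6]
        exact h5
      rw [h4]
      exact h3)
    have hw := wt_mul δ e κ hκ he1 _ hcd
    calc _ ≤ CU * (K * (CC * B / L)) ^ 2 * B' ^ 2 := hUBA _ _ hw hbd
      _ = _ := by ring
  -- piece 3
  have hP3 : EAg φ F (Real.exp L) (fun d => ((U (beg φ L d) d - U 0 d) * Mdg φ 2 L Q d) ^ 2) ≤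
      4 * b ^ 2 * (CU * (K * CC) ^ 2) * B ^ 2 * B' ^ 2 / L ^ 2 := by
    have h := sob F hF hF0 (Real.exp L) hX (b / L) hℓ (fun β d => U β d * Mdg φ 2 L Q d)
      (fun β d => U' β d * Mdg φ 2 L Q d) (fun d => beg φ L d) (CU * (K * (CC * B)) ^ 2 * B' ^ 2)
      (fun β d hβ => (hU0 β d hβ).mul_const _) (fun d => (hU'c d).mul continuousOn_const)
      (fun β hβ => by
        have hbd := hLeib (KGg φ L β (deriv Φ)) (CC * B) (hKC' β hβ).2.1 (by
          intro y h1 h2 j hj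
          exact ((hKC' β hβ).1 y h1 h2 j hj).1)
        have hw := wt_mul δ e κ hκ he1 _ (hKC' β hβ).2.1
        exact hUBA _ _ hw hbd)
      (fun d hd => (h8 L hL8 d hd).1)
    calc _ = EAg φ F (Real.exp L) (fun d => (U (beg φ L d) d * Mdg φ 2 L Q d - U 0 d * Mdg φ 2 L Q d) ^ 2) := by
          congr 1
          funext d
          ring
      _ ≤ _ := h
      _ = _ := by
          rw [div_pow]
          ring
  -- assembly
  calc EAg φ F (Real.exp L) (fun d => ((Nfg φ L (KGg φ L (beg φ L d) Φ) d -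
        ceg φ * Ndg φ 2 L (fun y => Φ (1 / 2 - y) * κ y) d) * Mdg φ 2 L Q d) ^ 2)
      ≤ EAg φ F (Real.exp L) (fun d => 3 * ((Nfg φ L (KGg φ L (beg φ L d) Φ) d - U (beg φ L d) d) *
          Mdg φ 2 L Q d) ^ 2 + 3 * (D0 d * Mdg φ 2 L Q d) ^ 2 +
          3 * ((U (beg φ L d) d - U 0 d) * Mdg φ 2 L Q d) ^ 2) := by
        refine EF_mono F hF hF0 _ hX _ _ fun d _ _ => ?_
        rw [hsplit (beg φ L d) d]
        have e1 : (Nfg φ L (KGg φ L (beg φ L d) Φ) d - (U (beg φ L d) d - D0 d - (U (beg φ L d) d - U 0 d))) *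
            Mdg φ 2 L Q d = (Nfg φ L (KGg φ L (beg φ L d) Φ) d - U (beg φ L d) d) * Mdg φ 2 L Q d +
            D0 d * Mdg φ 2 L Q d + (U (beg φ L d) d - U 0 d) * Mdg φ 2 L Q d := by ring
        rw [e1]
        exact sq3 _ _ _
    _ = 3 * EAg φ F (Real.exp L) (fun d => ((Nfg φ L (KGg φ L (beg φ L d) Φ) d - U (beg φ L d) d) *
          Mdg φ 2 L Q d) ^ 2) + 3 * EAg φ F (Real.exp L) (fun d => (D0 d * Mdg φ 2 L Q d) ^ 2) +
        3 * EAg φ F (Real.exp L) (fun d => ((U (beg φ L d) d - U 0 d) * Mdg φ 2 L Q d) ^ 2) := by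
        rw [EF_add F hF _ hX (fun d => 3 * ((Nfg φ L (KGg φ L (beg φ L d) Φ) d - U (beg φ L d) d) *
          Mdg φ 2 L Q d) ^ 2 + 3 * (D0 d * Mdg φ 2 L Q d) ^ 2),
          EF_add F hF _ hX (fun d => 3 * ((Nfg φ L (KGg φ L (beg φ L d) Φ) d - U (beg φ L d) d) *
          Mdg φ 2 L Q d) ^ 2), EF_smul F hF _ hX, EF_smul F hF _ hX, EF_smul F hF _ hX]
    _ ≤ 3 * (4 * CT ^ 2 * E1 * B ^ 2 * B' ^ 2 / L ^ 2) +
        3 * (CU * (K * CC) ^ 2 * B ^ 2 * B' ^ 2 / L ^ 2) +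
        3 * (4 * b ^ 2 * (CU * (K * CC) ^ 2) * B ^ 2 * B' ^ 2 / L ^ 2) := by
        linarith
    _ = _ := by ring

end

end Pool.Agent.H987R2.RGKEG
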