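import Pool.Agent.H987R2.Mom
import Pool.Agent.Helper764.Cop_strE
import Pool.Agent.Helper764.Cop_int
import Pool.Agent.Helper764.Cop_K

set_option autoImplicit false
open MeasureTheory ProbabilityTheory Filter Topology
open scoped ENNReal NNReal

namespace H987R2
open Cop764

/-- Jensen for sub-probability weights and a concave power -/
lemma sum_rpow_le {ι : Type*} (s : Finset ι) (w y : ι → ℝ) {g : ℝ} (hg : 0 < g) (hg1 : g < 1)
    (hw : ∀ i ∈ s, 0 ≤ w i) (hs : ∑ i ∈ s, w i ≤ 1) (hy : ∀ i ∈ s, 0 ≤ y i) :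
    ∑ i ∈ s, w i * y i ^ g ≤ (∑ i ∈ s, w i * y i) ^ g := by
  set W := ∑ i ∈ s, w i with hW
  have hW0 : 0 ≤ W := Finset.sum_nonneg hw
  rcases hW0.eq_or_lt with h | h
  · have h0 : ∀ i ∈ s, w i = 0 := by
      rw [← h] at hW
      exact (Finset.sum_eq_zero_iff_of_nonneg hw).1 hW.symm
    rw [Finset.sum_eq_zero (fun i hi => by rw [h0 i hi, zero_mul])]
    exact Real.rpow_nonneg (Finset.sum_nonneg fun i hi => mul_nonneg (hw i hi) (hy i hi)) _
  · have h1 := (Real.concaveOn_rpow hg.le hg1.le).le_map_sum (t := s) (w := fun i => w i / W)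
      (p := y) (fun i hi => div_nonneg (hw i hi) h.le)
      (by rw [← Finset.sum_div]; exact div_self h.ne') (fun i hi => hy i hi)
    simp only [smul_eq_mul] at h1
    have h2 : ∑ i ∈ s, w i * y i ^ g = W * ∑ i ∈ s, w i / W * y i ^ g := by
      rw [Finset.mul_sum]
      refine Finset.sum_congr rfl fun i _ => ?_
      field_simp
    have h3 : ∑ i ∈ s, w i * y i = W * ∑ i ∈ s, w i / W * y i := by
      rw [Finset.mul_sum]
      refine Finset.sum_congr rfl fun i _ => ?_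
      field_simp
    have hA : 0 ≤ ∑ i ∈ s, w i / W * y i :=
      Finset.sum_nonneg fun i hi => mul_nonneg (div_nonneg (hw i hi) h.le) (hy i hi)
    rw [h2, h3, Real.mul_rpow h.le hA]
    have h4 : W ≤ W ^ g := by
      calc W = W ^ (1:ℝ) := (Real.rpow_one W).symm
        _ ≤ W ^ g := Real.rpow_le_rpow_of_exponent_ge h hs hg1.le
    calc W * ∑ i ∈ s, w i / W * y i ^ g ≤ W * (∑ i ∈ s, w i / W * y i) ^ g :=
          mul_le_mul_of_nonneg_left h1 h.le
      _ ≤ W ^ g * (∑ i ∈ s, w i / W * y i) ^ g :=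
          mul_le_mul_of_nonneg_right h4 (Real.rpow_nonneg hA _)

lemma K_nonneg (D : Data) (n : ℕ) : 0 ≤ D.K n := ENNReal.toReal_nonneg

lemma K_sum_le (D : Data) (s : Finset ℕ) : ∑ k ∈ s, D.K k ≤ 1 := M_Z.J_Z_Ksum D.κ s

lemma G_nonneg (D : Data) (w : ℕ → ℝ) (i j : ℕ) : 0 ≤ G D.K w i j :=
  (M_G.J_G D.K w (K_nonneg D)).2.1 i j

lemma meas_G (D : Data) (h : ℝ) (a b : ℕ) : Measurable (fun ω : ℕ → ℝ => G D.K (D.w h ω) a b) :=
  (M_meas.J_meas D h a b).1

lemma int_G (D : Data) {h : ℝ} (hh : 0 ≤ h) (l : ℕ) :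
    Integrable (fun ω : ℕ → ℝ => G D.K (D.w h ω) 0 l) D.P := by
  rcases Nat.eq_zero_or_pos l with rfl | hl
  · have : (fun ω : ℕ → ℝ => G D.K (D.w h ω) 0 0) = fun _ => 1 := by
      funext ω; rw [G_eq, if_pos rfl]
    rw [this]; exact integrable_const _
  · obtain ⟨C1, _, hC⟩ := M_EF.J_EF D
    have h1 := (hC h hh 0 l hl).1
    rw [zero_add] at h1
    refine h1.mono' (meas_G D h 0 l).aestronglyMeasurable (Filter.Eventually.of_forall fun ω => ?_)
    rw [Real.norm_eq_abs, abs_of_nonneg (G_nonneg D _ _ _)]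
    exact (M_Z.J_Z D h ω l).1.trans (M_Z.J_Z D h ω l).2

lemma int_G_rpow (D : Data) {h : ℝ} (hh : 0 ≤ h) (l : ℕ) {g : ℝ} (hg : 0 ≤ g) (hg1 : g ≤ 1) :
    Integrable (fun ω : ℕ → ℝ => (G D.K (D.w h ω) 0 l) ^ g) D.P := by
  refine ((integrable_const (1:ℝ)).add (int_G D hh l)).mono'
    ((meas_G D h 0 l).pow_const g).aestronglyMeasurable (Filter.Eventually.of_forall fun ω => ?_)
  have hp := (G_nonneg D (D.w h ω) 0 l)
  rw [Real.norm_eq_abs, abs_of_nonneg (Real.rpow_nonneg hp _)]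
  exact rpow_le_one_add hp hg hg1

lemma am_nonneg (D : Data) (g h : ℝ) (l : ℕ) : 0 ≤ am D g h l :=
  integral_nonneg fun ω => Real.rpow_nonneg (G_nonneg D _ _ _) _

lemma em_nonneg (D : Data) (g h : ℝ) (l : ℕ) : 0 ≤ em D g h l :=
  integral_nonneg fun ω => Real.rpow_nonneg (phi_pos' _ _ _).le _

lemma w_shift (D : Data) (h : ℝ) (ω : ℕ → ℝ) (k : ℕ) :
    D.w h (fun n => ω (n + k)) = fun n => D.w h ω (n + k) := rfl

/-- shift and restriction properties of the weights -/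
lemma phi_congr {w w' : ℕ → ℝ} {i j : ℕ} (h : ∀ n ∈ Finset.Ioc i j, w n = w' n) :
    phi w i j = phi w' i j := by
  unfold phi S
  rw [Finset.sum_congr rfl h]

lemma term_eq (D : Data) {g : ℝ} (hg : 0 ≤ g) (hg1 : g ≤ 1) {h : ℝ} (hh : 0 ≤ h) (k l : ℕ) (hkl : k ≤ l) :
    Integrable (fun ω : ℕ → ℝ => (phi (D.w h ω) 0 k) ^ g * (G D.K (D.w h ω) k l) ^ g) D.P ∧
    ∫ ω, (phi (D.w h ω) 0 k) ^ g * (G D.K (D.w h ω) k l) ^ g ∂D.P = em D g h k * am D g h (l - k) := by
  have hf : Measurable (fun ω : ℕ → ℝ => (phi (D.w h ω) 0 k) ^ g) := (meas_phi D h 0 k).pow_const g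
  have hG : Measurable (fun ω : ℕ → ℝ => (G D.K (D.w h ω) k l) ^ g) := (meas_G D h k l).pow_const g
  have hdisj : Disjoint (Finset.Ioc 0 k) (Finset.Ioc k l) := by
    rw [Finset.disjoint_left]
    intro a ha hb
    rw [Finset.mem_Ioc] at ha hb
    omega
  have hI : IndepFun (fun ω : ℕ → ℝ => (phi (D.w h ω) 0 k) ^ g)
      (fun ω : ℕ → ℝ => (G D.K (D.w h ω) k l) ^ g) D.P := by
    refine M_indep.J_indep D.ν _ _ hdisj _ _ hf hG ?_ ?_
    · intro ω ω' h1
      show (phi (D.w h ω) 0 k) ^ g = (phi (D.w h ω') 0 k) ^ g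
      rw [phi_congr (w' := D.w h ω') (fun n hn => by unfold Data.w; rw [h1 n hn])]
    · intro ω ω' h1
      show (G D.K (D.w h ω) k l) ^ g = (G D.K (D.w h ω') k l) ^ g
      rw [(M_loc.J_loc.2.2.2 D.K (D.w h ω) (D.w h ω') k l
        (fun n hn => by unfold Data.w; rw [h1 n hn])).1]
  have hmp := M_stat.J_stat D.ν k
  have hsh : Measurable (fun (ω : ℕ → ℝ) (n : ℕ) => ω (n + k)) :=
    measurable_pi_lambda _ fun n => measurable_pi_apply _
  have e : ∀ ω : ℕ → ℝ, (G D.K (D.w h ω) k l) ^ g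
      = (fun ω' : ℕ → ℝ => (G D.K (D.w h ω') 0 (l - k)) ^ g) (fun n => ω (n + k)) := by
    intro ω
    show (G D.K (D.w h ω) k l) ^ g = (G D.K (D.w h (fun n => ω (n + k))) 0 (l - k)) ^ g
    rw [w_shift, M_loc.J_loc.1, zero_add, Nat.sub_add_cancel hkl]
  have hG0 : Measurable (fun ω' : ℕ → ℝ => (G D.K (D.w h ω') 0 (l - k)) ^ g) :=
    (meas_G D h 0 (l - k)).pow_const g
  have hGi : Integrable (fun ω : ℕ → ℝ => (G D.K (D.w h ω) k l) ^ g) D.P := by
    have := hmp.integrable_comp_of_integrable (int_G_rpow D hh (l - k) hg hg1)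
    refine this.congr (Filter.Eventually.of_forall fun ω => ?_)
    exact (e ω).symm
  refine ⟨hI.integrable_mul (int_phi_rpow D h k hg hg1) hGi, ?_⟩
  rw [hI.integral_fun_mul_eq_mul_integral hf.aestronglyMeasurable hG.aestronglyMeasurable]
  unfold em am
  congr 1
  have h1 := MeasureTheory.integral_map (μ := disorder D.ν)
      (φ := fun (ω : ℕ → ℝ) (n : ℕ) => ω (n + k)) hsh.aemeasurable
      (f := fun ω' : ℕ → ℝ => (G D.K (D.w h ω') 0 (l - k)) ^ g)
      (by rw [hmp.map_eq]; exact hG0.aestronglyMeasurable)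
  rw [hmp.map_eq] at h1
  unfold Data.P
  rw [h1]
  exact integral_congr_ae (Filter.Eventually.of_forall e)

/-- the renewal-type inequality for the fractional moments -/
lemma am_rec (D : Data) {g : ℝ} (hg : 0 < g) (hg1 : g < 1) {h : ℝ} (hh : 0 ≤ h) (l : ℕ) :
    ∑ k ∈ Finset.Icc 1 l, D.K k * em D g h k * am D g h (l - k) ≤ am D g h l := by
  rcases Nat.eq_zero_or_pos l with rfl | hl
  · simpa using am_nonneg D g h 0
  have hpt : ∀ ω : ℕ → ℝ, ∑ k ∈ Finset.Icc 1 l,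
      D.K k * ((phi (D.w h ω) 0 k) ^ g * (G D.K (D.w h ω) k l) ^ g) ≤ (G D.K (D.w h ω) 0 l) ^ g := by
    intro ω
    rw [G_eq D.K (D.w h ω) 0 l, if_neg (by omega), M_Z.J_Z_Icc]
    have h1 : ∀ k ∈ Finset.Icc 1 l, D.K k * ((phi (D.w h ω) 0 k) ^ g * (G D.K (D.w h ω) k l) ^ g)
        = D.K k * (phi (D.w h ω) 0 k * G D.K (D.w h ω) k l) ^ g := by
      intro k _
      rw [Real.mul_rpow (phi_pos' _ _ _).le (G_nonneg D _ _ _)]
    rw [Finset.sum_congr rfl h1]
    have h2 : ∑ k ∈ Finset.Icc 1 l, D.K (k - 0) * phi (D.w h ω) 0 k * G D.K (D.w h ω) k l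
        = ∑ k ∈ Finset.Icc 1 l, D.K k * (phi (D.w h ω) 0 k * G D.K (D.w h ω) k l) := by
      refine Finset.sum_congr rfl fun k _ => ?_
      rw [Nat.sub_zero]; ring
    rw [h2]
    exact sum_rpow_le _ _ _ hg hg1 (fun k _ => K_nonneg D k) (K_sum_le D _)
      (fun k _ => mul_nonneg (phi_pos' _ _ _).le (G_nonneg D _ _ _))
  have hterm : ∀ k ∈ Finset.Icc 1 l, Integrable (fun ω : ℕ → ℝ =>
      D.K k * ((phi (D.w h ω) 0 k) ^ g * (G D.K (D.w h ω) k l) ^ g)) D.P := fun k hk =>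
    ((term_eq D hg.le hg1.le hh k l (Finset.mem_Icc.1 hk).2).1).const_mul _
  have h3 := integral_mono (integrable_finset_sum _ hterm) (int_G_rpow D hh l hg.le hg1.le) hpt
  rw [integral_finset_sum _ hterm] at h3
  refine le_trans (le_of_eq ?_) h3
  refine Finset.sum_congr rfl fun k hk => ?_
  rw [integral_const_mul, (term_eq D hg.le hg1.le hh k l (Finset.mem_Icc.1 hk).2).2]
  ring

lemma am_zero (D : Data) (g h : ℝ) : am D g h 0 = 1 := by
  unfold am
  have : (fun ω : ℕ → ℝ => (G D.K (D.w h ω) 0 0) ^ g) = fun _ => 1 := by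
    funext ω; rw [G_eq, if_pos rfl, Real.one_rpow]
  rw [this]; simp

/-- abstract growth lemma -/
lemma growth (a q : ℕ → ℝ) (M : ℕ) (hM : 1 ≤ M) (ha : ∀ n, 0 ≤ a n) (hq : ∀ n, 0 ≤ q n)
    (ha0 : a 0 = 1)
    (hrec : ∀ l, ∑ k ∈ Finset.Icc 1 l, q k * a (l - k) ≤ a l) (C : ℝ)
    (hC : ∀ l, a l ≤ C * ((l : ℝ) + 1) ^ 2) :
    ∑ k ∈ Finset.Icc 1 M, q k ≤ 1 := by
  set Q := ∑ k ∈ Finset.Icc 1 M, q k with hQ
  have hQ0 : 0 ≤ Q := Finset.sum_nonneg fun k _ => hq k
  by_contra hcon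
  push Not at hcon
  set T : ℕ → ℝ := fun L => ∑ l ∈ Finset.range (L + 1), a l with hT
  have hT0 : T 0 = 1 := by simp [hT, ha0]
  have hTnn : ∀ L, 0 ≤ T L := fun L => Finset.sum_nonneg fun l _ => ha l
  have step : ∀ L, Q * T L ≤ T (L + M) := by
    intro L
    have h1 : Q * T L = ∑ k ∈ Finset.Icc 1 M, ∑ j ∈ Finset.range (L + 1), q k * a j := by
      rw [hQ, Finset.sum_mul]
      refine Finset.sum_congr rfl fun k _ => ?_
      rw [hT, Finset.mul_sum]
    have h2 : ∀ k ∈ Finset.Icc 1 M, ∑ j ∈ Finset.range (L + 1), q k * a j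
        ≤ ∑ l ∈ Finset.range (L + M + 1), if k ≤ l then q k * a (l - k) else 0 := by
      intro k hk
      rw [Finset.mem_Icc] at hk
      have h3 : ∑ j ∈ Finset.range (L + 1), q k * a j
          = ∑ l ∈ (Finset.range (L + 1)).map ⟨fun j => j + k, fun x y hxy => by simpa using hxy⟩,
            if k ≤ l then q k * a (l - k) else 0 := by
        rw [Finset.sum_map]
        refine Finset.sum_congr rfl fun j _ => ?_
        simp
      rw [h3]
      refine Finset.sum_le_sum_of_subset_of_nonneg ?_ ?_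
      · intro l hl
        simp only [Finset.mem_map, Finset.mem_range, Function.Embedding.coeFn_mk] at hl ⊢
        obtain ⟨j, hj, rfl⟩ := hl
        omega
      · intro l _ _
        split_ifs
        · exact mul_nonneg (hq _) (ha _)
        · exact le_rfl
    rw [h1]
    refine (Finset.sum_le_sum h2).trans ?_
    rw [Finset.sum_comm]
    refine Finset.sum_le_sum fun l _ => ?_
    refine le_trans ?_ (hrec l)
    rw [← Finset.sum_filter]
    refine Finset.sum_le_sum_of_subset_of_nonneg ?_ fun k _ _ => mul_nonneg (hq _) (ha _)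
    intro k hk
    simp only [Finset.mem_filter, Finset.mem_Icc] at hk ⊢
    omega
  have hpow : ∀ n : ℕ, Q ^ n ≤ T (n * M) := by
    intro n
    induction n with
    | zero => simp [hT0]
    | succ n ih =>
      calc Q ^ (n + 1) = Q * Q ^ n := by ring
        _ ≤ Q * T (n * M) := mul_le_mul_of_nonneg_left ih hQ0
        _ ≤ T (n * M + M) := step _
        _ = T ((n + 1) * M) := by congr 1; ring
  have hC0 : 0 ≤ C := by
    have := hC 0
    rw [ha0] at this
    norm_num at this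
    linarith
  have hup : ∀ L : ℕ, T L ≤ C * ((L : ℝ) + 1) ^ 3 := by
    intro L
    calc T L ≤ ∑ l ∈ Finset.range (L + 1), C * ((L : ℝ) + 1) ^ 2 := by
          refine Finset.sum_le_sum fun l hl => (hC l).trans ?_
          have : (l : ℝ) ≤ L := by exact_mod_cast (by simpa using Finset.mem_range_succ_iff.1 hl)
          gcongr
      _ = C * ((L : ℝ) + 1) ^ 3 := by
          rw [Finset.sum_const, Finset.card_range, nsmul_eq_mul]
          push_cast; ring
  -- contradiction with exponential growth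
  have htend : Tendsto (fun n : ℕ => ((n : ℝ)) ^ 3 / Q ^ n) atTop (𝓝 0) :=
    tendsto_pow_const_div_const_pow_of_one_lt 3 hcon
  have hK : (0:ℝ) < 1 / (8 * (C + 1) * (M : ℝ) ^ 3) := by
    have : (0:ℝ) < M := by exact_mod_cast hM
    positivity
  obtain ⟨n, hn1, hn⟩ := ((eventually_ge_atTop 1).and (htend.eventually_lt_const hK)).exists
  have hQn : 0 < Q ^ n := pow_pos (by linarith) _
  rw [div_lt_div_iff₀ hQn (by have : (0:ℝ) < M := by exact_mod_cast hM
                              positivity)] at hn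
  have h5 := (hpow n).trans (hup (n * M))
  have h6 : ((n * M : ℕ) : ℝ) + 1 ≤ 2 * (n * M : ℝ) := by
    push_cast
    have h7 : (1:ℝ) ≤ n := by exact_mod_cast hn1
    have h8 : (1:ℝ) ≤ M := by exact_mod_cast hM
    nlinarith
  have h7 : C * (((n * M : ℕ) : ℝ) + 1) ^ 3 ≤ C * (2 * (n * M : ℝ)) ^ 3 := by
    gcongr
  have h8 : C * (2 * (n * M : ℝ)) ^ 3 = (n:ℝ) ^ 3 * (8 * C * (M:ℝ) ^ 3) := by ring
  have h9 : (n:ℝ) ^ 3 * (8 * C * (M:ℝ) ^ 3) ≤ (n:ℝ) ^ 3 * (8 * (C + 1) * (M:ℝ) ^ 3) := by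
    gcongr; linarith
  linarith

end H987R2
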