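import Pool.Agent.H987R2.Rec

set_option autoImplicit false
open MeasureTheory ProbabilityTheory Filter Topology
open scoped ENNReal NNReal

namespace H987R2
open Cop764

lemma G_pos (D : Data) {c0 : ℝ} {n0 : ℕ} (hK : KHyp D.K D.α c0 n0) (w : ℕ → ℝ) (l : ℕ)
    (hl : n0 ≤ l) : 0 < G D.K w 0 l := by
  have hn0 := hK.n0_pos
  have h1 := (M_G.J_G D.K w (K_nonneg D)).2.2.1 0 l (by omega)
  rw [Nat.sub_zero] at h1
  have h2 := hK.lower l hl
  have hl0 : (0:ℝ) < l := by exact_mod_cast (by omega : 0 < l)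
  have h3 : 0 < c0 * (l:ℝ) ^ (-(1 + D.α)) := mul_pos hK.c0_pos (Real.rpow_pos_of_pos hl0 _)
  have h4 := phi_pos' w 0 l
  have : 0 < D.K l * phi w 0 l := mul_pos (by linarith) h4
  linarith

/-- tail estimate from the rare-stretch strategy -/
lemma tail_bound (D : Data) {c0 : ℝ} {n0 : ℕ} (hK : KHyp D.K D.α c0 n0) {h : ℝ} (hh : 0 ≤ h)
    (hf : D.f h ≤ 0) {l : ℕ} (hl : n0 ≤ l) {g : ℝ} (hg : g * (1 + D.α) = 1)
    {B y : ℝ} (hB : B = Real.log (2 / c0) + (1 + D.α) * Real.log l + 1) (hy : B ≤ y) :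
    D.P.real {ω | y ≤ D.lG h 0 l ω} ≤ (1 + D.α) * Real.exp (-(g * (y - B))) := by
  have hα := D.hα
  have hg0 : 0 < g := by
    by_contra hc
    push Not at hc
    nlinarith
  set q : ℝ := Real.exp (-(g * (y - B))) with hq
  have hq0 : 0 < q := Real.exp_pos _
  have hq1 : q ≤ 1 := by
    rw [hq, Real.exp_le_one_iff]
    have : 0 ≤ g * (y - B) := mul_nonneg hg0.le (by linarith)
    linarith
  have hlq : Real.log q⁻¹ = g * (y - B) := by
    rw [Real.log_inv, hq, Real.log_exp]; ring
  have h1 := M_strE.J_strE D c0 n0 hK h hh l hl q hq0 hq1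
  have hb : Real.log (2 / c0) + (1 + D.α) * (Real.log l + Real.log q⁻¹) = y - 1 := by
    rw [hlq, mul_add, ← mul_assoc, mul_comm (1 + D.α) g, hg, hB]; ring
  rw [hb] at h1
  have hint : Integrable (D.lG h 0 l) D.P := (M_int.J_int D c0 n0 hK h hh).2.1 0 l (by omega)
  have hmeas : Measurable (D.lG h 0 l) := (meas_G D h 0 l).log
  have hset : MeasurableSet {ω | y ≤ D.lG h 0 l ω} := hmeas measurableSet_Ici
  have h2 : D.P.real {ω | y ≤ D.lG h 0 l ω} ≤ ∫ ω, max (D.lG h 0 l ω - (y - 1)) 0 ∂D.P := by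
    rw [← integral_indicator_one hset]
    refine integral_mono ((integrable_const (1:ℝ)).indicator hset) ?_ ?_
    · exact (hint.sub (integrable_const _)).pos_part
    · intro ω
      by_cases hω : y ≤ D.lG h 0 l ω
      · rw [Set.indicator_of_mem (by exact hω)]
        simp only [Pi.one_apply]
        exact le_max_of_le_left (by linarith)
      · rw [Set.indicator_of_notMem (by exact hω)]
        exact le_max_right _ _
  have h3 : (l:ℝ) * D.f h ≤ 0 := mul_nonpos_of_nonneg_of_nonpos (Nat.cast_nonneg _) hf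
  linarith

lemma pointwise_split {g X B : ℝ} (hg : 0 < g) (hg1 : g < 1) (I : ℕ) :
    Real.exp (g * X) ≤ Real.exp (g * B) +
      ∑ i ∈ Finset.range I, (if B + i ≤ X then Real.exp (g * (B + i + 1)) else 0) +
      Real.exp X * Real.exp (-((1 - g) * (B + I))) := by
  have hs : ∀ s : Finset ℕ, 0 ≤ ∑ i ∈ s, (if B + (i:ℝ) ≤ X then Real.exp (g * (B + i + 1)) else 0) := by
    intro s
    refine Finset.sum_nonneg fun i _ => ?_
    split_ifs
    · exact (Real.exp_pos _).le
    · exact le_rfl
  have hB0 := Real.exp_pos (g * B)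
  have hX0 := mul_pos (Real.exp_pos X) (Real.exp_pos (-((1 - g) * (B + I))))
  rcases le_or_gt X B with h | h
  · have : Real.exp (g * X) ≤ Real.exp (g * B) := Real.exp_le_exp.2 (by nlinarith)
    have := hs (Finset.range I)
    linarith
  rcases le_or_gt (B + I) X with h2 | h2
  · have : Real.exp (g * X) ≤ Real.exp X * Real.exp (-((1 - g) * (B + I))) := by
      rw [← Real.exp_add]
      apply Real.exp_le_exp.2
      nlinarith
    have := hs (Finset.range I)
    linarith
  · set i := ⌊X - B⌋₊ with hi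
    have h3 : (i:ℝ) ≤ X - B := Nat.floor_le (by linarith)
    have h4 : X - B < i + 1 := Nat.lt_floor_add_one _
    have hiI : i < I := by
      have : (i:ℝ) < I := by linarith
      exact_mod_cast this
    have h5 : (if B + (i:ℝ) ≤ X then Real.exp (g * (B + i + 1)) else 0)
        ≤ ∑ i ∈ Finset.range I, (if B + (i:ℝ) ≤ X then Real.exp (g * (B + i + 1)) else 0) := by
      refine Finset.single_le_sum (f := fun i : ℕ => if B + (i:ℝ) ≤ X then Real.exp (g * (B + i + 1)) else 0)
        (fun j _ => ?_) (Finset.mem_range.2 hiI)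
      split_ifs
      · exact (Real.exp_pos _).le
      · exact le_rfl
    rw [if_pos (by linarith)] at h5
    have h6 : Real.exp (g * X) ≤ Real.exp (g * (B + i + 1)) := Real.exp_le_exp.2 (by nlinarith)
    linarith

/-- in the delocalized phase the fractional moments of order `1/(1+α)` grow at most polynomially -/
lemma am_upper (D : Data) {h : ℝ} (hh : 0 ≤ h) (hf : D.f h ≤ 0) {g : ℝ} (hg : g * (1 + D.α) = 1) :
    ∃ C : ℝ, ∀ l : ℕ, am D g h l ≤ C * ((l : ℝ) + 1) ^ 2 := by
  obtain ⟨c0, n0, hK⟩ := M_K.J_K D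
  obtain ⟨C1, hC1, hEF⟩ := M_EF.J_EF D
  have hα := D.hα
  have hg0 : 0 < g := by
    by_contra hc
    push Not at hc
    nlinarith
  have hg1 : g < 1 := by nlinarith
  have hc0 := hK.c0_pos
  have hc1 := hK.c0_le
  have hn0 := hK.n0_pos
  have hlog0 : 0 ≤ Real.log (2 / c0) := Real.log_nonneg (by rw [le_div_iff₀ hc0]; linarith)
  have hEG : ∀ l : ℕ, ∫ ω, G D.K (D.w h ω) 0 l ∂D.P ≤ Real.exp (C1 * l) := by
    intro l
    rcases Nat.eq_zero_or_pos l with rfl | hl
    · have : (fun ω : ℕ → ℝ => G D.K (D.w h ω) 0 0) = fun _ => 1 := by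
        funext ω; rw [G_eq, if_pos rfl]
      rw [this]; simp
    · have h1 := hEF h hh 0 l hl
      rw [zero_add] at h1
      exact (integral_mono (int_G D hh l) h1.1
        (fun ω => (M_Z.J_Z D h ω l).1.trans (M_Z.J_Z D h ω l).2)).trans h1.2
  -- small l
  have hsmall : ∀ l : ℕ, l ≤ n0 → am D g h l ≤ 1 + Real.exp (C1 * n0) := by
    intro l hl
    have h1 : am D g h l ≤ ∫ ω, (1 + G D.K (D.w h ω) 0 l) ∂D.P :=
      integral_mono (int_G_rpow D hh l hg0.le hg1.le) ((integrable_const _).add (int_G D hh l))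
        (fun ω => rpow_le_one_add (G_nonneg D _ _ _) hg0.le hg1.le)
    rw [integral_add (integrable_const _) (int_G D hh l)] at h1
    simp only [integral_const, probReal_univ, smul_eq_mul, mul_one] at h1
    have h2 : Real.exp (C1 * l) ≤ Real.exp (C1 * n0) := by
      apply Real.exp_le_exp.2
      have : (l:ℝ) ≤ n0 := by exact_mod_cast hl
      nlinarith
    have := hEG l
    linarith
  set A := Real.exp (Real.log (2 / c0) + 1) with hA
  set C2 := A * (1 + (C1 / (1 - g) + 1) * ((1 + D.α) * Real.exp 1)) + 1 with hC2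
  have h1g : 0 < 1 - g := by linarith
  have hA0 : 0 < A := Real.exp_pos _
  have hC20 : 0 < C2 := by positivity
  refine ⟨C2 + (1 + Real.exp (C1 * n0)), fun l => ?_⟩
  have hl1 : (1:ℝ) ≤ ((l:ℝ) + 1) ^ 2 := by
    have : (0:ℝ) ≤ l := Nat.cast_nonneg _
    nlinarith
  rcases le_or_gt l n0 with hl | hl
  · refine (hsmall l hl).trans ?_
    have := Real.exp_pos (C1 * n0)
    nlinarith
  · have hl' : n0 ≤ l := hl.le
    have hlr : (1:ℝ) ≤ l := by exact_mod_cast (by omega : 1 ≤ l)
    have hl0 : (0:ℝ) < l := by linarith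
    set B := Real.log (2 / c0) + (1 + D.α) * Real.log l + 1 with hB
    have hB0 : 0 ≤ B := by
      have : 0 ≤ (1 + D.α) * Real.log l := mul_nonneg (by linarith) (Real.log_nonneg hlr)
      linarith
    set I := ⌈C1 * l / (1 - g)⌉₊ with hI
    have hI1 : C1 * l / (1 - g) ≤ I := Nat.le_ceil _
    have hI2 : (I:ℝ) ≤ C1 * l / (1 - g) + 1 := (Nat.ceil_lt_add_one (by positivity)).le
    have hmeas : Measurable (D.lG h 0 l) := (meas_G D h 0 l).log
    have hset : ∀ y : ℝ, MeasurableSet {ω | y ≤ D.lG h 0 l ω} := fun y => hmeas measurableSet_Ici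
    have hpt : ∀ ω : ℕ → ℝ, (G D.K (D.w h ω) 0 l) ^ g ≤ Real.exp (g * B) +
      ∑ i ∈ Finset.range I, ({ω | B + (i:ℝ) ≤ D.lG h 0 l ω}.indicator (fun _ => Real.exp (g * (B + i + 1))) ω) +
      G D.K (D.w h ω) 0 l * Real.exp (-((1 - g) * (B + I))) := by
      intro ω
      have hG := G_pos D hK (D.w h ω) l hl'
      have h1 := pointwise_split (X := D.lG h 0 l ω) (B := B) hg0 hg1 I
      have h2 : Real.exp (g * D.lG h 0 l ω) = (G D.K (D.w h ω) 0 l) ^ g := by
        rw [Real.rpow_def_of_pos hG]; unfold Data.lG; congr 1; ring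
      have h3 : Real.exp (D.lG h 0 l ω) = G D.K (D.w h ω) 0 l := Real.exp_log hG
      rw [h2, h3] at h1
      refine h1.trans (le_of_eq ?_)
      congr 2
    have hint1 : ∀ i ∈ Finset.range I, Integrable (fun ω =>
        ({ω | B + (i:ℝ) ≤ D.lG h 0 l ω}.indicator (fun _ => Real.exp (g * (B + i + 1))) ω)) D.P :=
      fun i _ => (integrable_const _).indicator (hset _)
    have i1 : Integrable (fun ω => ∑ i ∈ Finset.range I,
        ({ω | B + (i:ℝ) ≤ D.lG h 0 l ω}.indicator (fun _ => Real.exp (g * (B + i + 1))) ω)) D.P :=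
      integrable_finset_sum _ hint1
    have i2 : Integrable (fun ω => G D.K (D.w h ω) 0 l * Real.exp (-((1 - g) * (B + I)))) D.P :=
      (int_G D hh l).mul_const _
    have i3 : Integrable (fun ω => Real.exp (g * B) + ∑ i ∈ Finset.range I,
        ({ω | B + (i:ℝ) ≤ D.lG h 0 l ω}.indicator (fun _ => Real.exp (g * (B + i + 1))) ω)) D.P :=
      (integrable_const _).add i1
    have h1 : am D g h l ≤ _ := integral_mono (int_G_rpow D hh l hg0.le hg1.le) (i3.add i2) hpt
    have h2 : ∫ ω, ((Real.exp (g * B) + ∑ i ∈ Finset.range I,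
        ({ω | B + (i:ℝ) ≤ D.lG h 0 l ω}.indicator (fun _ => Real.exp (g * (B + i + 1))) ω))
        + G D.K (D.w h ω) 0 l * Real.exp (-((1 - g) * (B + I)))) ∂D.P
        = Real.exp (g * B) + ∑ i ∈ Finset.range I,
          D.P.real {ω | B + (i:ℝ) ≤ D.lG h 0 l ω} * Real.exp (g * (B + i + 1))
          + (∫ ω, G D.K (D.w h ω) 0 l ∂D.P) * Real.exp (-((1 - g) * (B + I))) := by
      rw [integral_add i3 i2, integral_add (integrable_const _) i1, integral_finset_sum _ hint1,
        integral_mul_const]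
      congr 2
      · simp
      · refine Finset.sum_congr rfl fun i _ => ?_
        rw [integral_indicator (hset _), setIntegral_const, smul_eq_mul]
    have h1' : am D g h l ≤ Real.exp (g * B) + ∑ i ∈ Finset.range I,
          D.P.real {ω | B + (i:ℝ) ≤ D.lG h 0 l ω} * Real.exp (g * (B + i + 1))
          + (∫ ω, G D.K (D.w h ω) 0 l ∂D.P) * Real.exp (-((1 - g) * (B + I))) := by
      rw [← h2]; exact h1
    have h3 : ∀ i ∈ Finset.range I,
        D.P.real {ω | B + (i:ℝ) ≤ D.lG h 0 l ω} * Real.exp (g * (B + i + 1))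
          ≤ Real.exp (g * B) * ((1 + D.α) * Real.exp 1) := by
      intro i _
      have h4 := tail_bound D hK hh hf hl' hg hB (y := B + i) (by
        have : (0:ℝ) ≤ i := Nat.cast_nonneg _
        linarith)
      have h5 : D.P.real {ω | B + (i:ℝ) ≤ D.lG h 0 l ω} * Real.exp (g * (B + i + 1))
          ≤ (1 + D.α) * Real.exp (-(g * (B + i - B))) * Real.exp (g * (B + i + 1)) :=
        mul_le_mul_of_nonneg_right h4 (Real.exp_pos _).le
      refine h5.trans ?_
      have h6 : (1 + D.α) * Real.exp (-(g * (B + i - B))) * Real.exp (g * (B + i + 1))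
          = (1 + D.α) * (Real.exp (g * B) * Real.exp g) := by
        rw [mul_assoc, ← Real.exp_add, ← Real.exp_add]
        congr 2; ring
      rw [h6]
      have h7 : Real.exp g ≤ Real.exp 1 := Real.exp_le_exp.2 hg1.le
      have : 0 < Real.exp (g * B) := Real.exp_pos _
      calc (1 + D.α) * (Real.exp (g * B) * Real.exp g) ≤ (1 + D.α) * (Real.exp (g * B) * Real.exp 1) := by
            gcongr
        _ = _ := by ring
    have h4 := Finset.sum_le_sum h3
    rw [Finset.sum_const, Finset.card_range, nsmul_eq_mul] at h4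
    have h5 : (∫ ω, G D.K (D.w h ω) 0 l ∂D.P) * Real.exp (-((1 - g) * (B + I))) ≤ 1 := by
      calc (∫ ω, G D.K (D.w h ω) 0 l ∂D.P) * Real.exp (-((1 - g) * (B + I)))
          ≤ Real.exp (C1 * l) * Real.exp (-((1 - g) * (B + I))) :=
            mul_le_mul_of_nonneg_right (hEG l) (Real.exp_pos _).le
        _ = Real.exp (C1 * l - (1 - g) * (B + I)) := by rw [← Real.exp_add]; congr 1
        _ ≤ 1 := by
            rw [Real.exp_le_one_iff]
            rw [div_le_iff₀ h1g] at hI1
            have : 0 ≤ (1 - g) * B := mul_nonneg h1g.le hB0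
            nlinarith
    have h6 : Real.exp (g * B) ≤ A * l := by
      have e1 : g * B = g * (Real.log (2 / c0) + 1) + Real.log l := by
        rw [hB]
        have : g * (Real.log (2 / c0) + (1 + D.α) * Real.log l + 1)
            = g * (Real.log (2 / c0) + 1) + (g * (1 + D.α)) * Real.log l := by ring
        rw [this, hg, one_mul]
      rw [e1, Real.exp_add, Real.exp_log hl0]
      apply mul_le_mul_of_nonneg_right _ hl0.le
      rw [hA]
      apply Real.exp_le_exp.2
      nlinarith
    have h7 : am D g h l ≤ A * l * (1 + I * ((1 + D.α) * Real.exp 1)) + 1 := by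
      have h8 : Real.exp (g * B) * (1 + I * ((1 + D.α) * Real.exp 1))
          ≤ A * l * (1 + I * ((1 + D.α) * Real.exp 1)) := by
        apply mul_le_mul_of_nonneg_right h6
        have := Real.exp_pos (1:ℝ)
        have : (0:ℝ) ≤ I := Nat.cast_nonneg _
        positivity
      nlinarith
    have h8 : (1 + (I:ℝ) * ((1 + D.α) * Real.exp 1))
        ≤ l * (1 + (C1 / (1 - g) + 1) * ((1 + D.α) * Real.exp 1)) := by
      have h9 : (I:ℝ) ≤ l * (C1 / (1 - g) + 1) := by
        refine hI2.trans ?_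
        have : C1 * l / (1 - g) = l * (C1 / (1 - g)) := by ring
        rw [this]
        nlinarith
      have h10 : (I:ℝ) * ((1 + D.α) * Real.exp 1) ≤ l * (C1 / (1 - g) + 1) * ((1 + D.α) * Real.exp 1) :=
        mul_le_mul_of_nonneg_right h9 (by positivity)
      nlinarith
    have h9 : A * l * (1 + I * ((1 + D.α) * Real.exp 1))
        ≤ A * l * (l * (1 + (C1 / (1 - g) + 1) * ((1 + D.α) * Real.exp 1))) :=
      mul_le_mul_of_nonneg_left h8 (by positivity)
    have h10 : A * l * (l * (1 + (C1 / (1 - g) + 1) * ((1 + D.α) * Real.exp 1))) + 1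
        ≤ C2 * ((l:ℝ) + 1) ^ 2 := by
      rw [hC2]
      set E := (1 + (C1 / (1 - g) + 1) * ((1 + D.α) * Real.exp 1)) with hE
      have hE0 : 0 < E := by positivity
      have h11 : A * l * (l * E) ≤ A * E * ((l:ℝ) + 1) ^ 2 := by
        have : A * l * (l * E) = A * E * (l:ℝ) ^ 2 := by ring
        rw [this]
        gcongr
        linarith
      nlinarith
    have h11 : C2 * ((l:ℝ) + 1) ^ 2 ≤ (C2 + (1 + Real.exp (C1 * n0))) * ((l:ℝ) + 1) ^ 2 := by
      have := Real.exp_pos (C1 * n0)
      gcongr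
      linarith
    linarith

/-- **criterion**: in the delocalized phase, `Σ_m K(m) E[φ_m^{1/(1+α)}] ≤ 1`. -/
theorem criterion (D : Data) {h : ℝ} (hh : 0 ≤ h) (hf : D.f h ≤ 0) {g : ℝ} (hg : g * (1 + D.α) = 1)
    (M : ℕ) (hM : 1 ≤ M) : ∑ k ∈ Finset.Icc 1 M, D.K k * em D g h k ≤ 1 := by
  have hα := D.hα
  have hg0 : 0 < g := by
    by_contra hc
    push Not at hc
    nlinarith
  have hg1 : g < 1 := by nlinarith
  obtain ⟨C, hC⟩ := am_upper D hh hf hg
  exact growth (am D g h) (fun k => D.K k * em D g h k) M hM (am_nonneg D g h)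
    (fun k => mul_nonneg (K_nonneg D k) (em_nonneg D g h k)) (am_zero D g h)
    (fun l => am_rec D hg0 hg1 hh l) C hC

end H987R2
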